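import Mathlib
import Pool.Agent.H462R2.AP1
import Pool.Agent.H762R2.RtD

/-! Finitely many discs permuted by contractions on the sphere (helper186). -/

set_option autoImplicit false

open Topology Filter Metric Set

namespace Pool.Agent.Q186.RI

open Pool.Agent.H762R2.Rt Pool.Agent.H462R2.AP Pool.Agent.Helper114.Herman

/-- iterated transition maps -/
noncomputable def tr {ι : Type*} (σ : ι → ι) (h : ι → ℂ → ℂ) (i : ι) : ℕ → ℂ → ℂ
  | 0 => fun x => x
  | k + 1 => fun x => h (σ^[k] i) (tr σ h i k x)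

theorem fin_charts {X : Type*} [TopologicalSpace X] {g : X → X} (hg : Continuous g)
    {ι : Type*} [Finite ι] {ψ : ι → ℂ → X} {σ : ι → ι} {h : ι → ℂ → ℂ} {r : ℝ} (hr : 0 < r)
    (hcont : ∀ i, Continuous (ψ i)) (hopen : ∀ i, IsOpenMap (ψ i))
    (hconj : ∀ i x, ‖x‖ ≤ r → g (ψ i x) = ψ (σ i) (h i x))
    (hm : ∀ i x, ‖x‖ ≤ r → ‖h i x‖ < r)
    (hl : ∀ i x y, ‖x‖ ≤ r → ‖y‖ ≤ r → ‖h i x - h i y‖ ≤ (1 / 2) * ‖x - y‖)
    {i : ι} {x : ℂ} (hx : ‖x‖ ≤ r) : Sinks g (ψ i x) := by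
  have h1 : ∀ (k : ℕ) (i : ι) (x : ℂ), ‖x‖ ≤ r → ‖tr σ h i k x‖ ≤ r := by
    intro k
    induction k with
    | zero => intro i x hx; exact hx
    | succ k ih => intro i x hx; exact (hm _ _ (ih i x hx)).le
  have h2 : ∀ (k : ℕ) (i : ι) (x : ℂ), ‖x‖ ≤ r → g^[k] (ψ i x) = ψ (σ^[k] i) (tr σ h i k x) := by
    intro k
    induction k with
    | zero => intro i x _; rfl
    | succ k ih =>
      intro i x hx
      rw [Function.iterate_succ_apply', ih i x hx, hconj _ _ (h1 k i x hx),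
        Function.iterate_succ_apply']
      rfl
  have h3 : ∀ (k : ℕ) (i : ι) (x y : ℂ), ‖x‖ ≤ r → ‖y‖ ≤ r →
      ‖tr σ h i k x - tr σ h i k y‖ ≤ (1 / 2) ^ k * ‖x - y‖ := by
    intro k
    induction k with
    | zero => intro i x y _ _; simp [tr]
    | succ k ih =>
      intro i x y hx hy
      calc ‖tr σ h i (k + 1) x - tr σ h i (k + 1) y‖
          ≤ (1 / 2) * ‖tr σ h i k x - tr σ h i k y‖ := hl _ _ _ (h1 k i x hx) (h1 k i y hy)
        _ ≤ (1 / 2) * ((1 / 2) ^ k * ‖x - y‖) :=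
            mul_le_mul_of_nonneg_left (ih i x y hx hy) (by norm_num)
        _ = _ := by ring
  obtain ⟨a, b, hab, he⟩ := Finite.exists_ne_map_eq_of_infinite (fun k : ℕ => σ^[k] i)
  obtain ⟨k, p, hp, hkp⟩ : ∃ k p : ℕ, 0 < p ∧ σ^[p] (σ^[k] i) = σ^[k] i := by
    rcases lt_or_gt_of_ne hab with hlt | hlt
    · refine ⟨a, b - a, by omega, ?_⟩
      rw [← Function.iterate_add_apply, show b - a + a = b by omega]
      exact he.symm
    · refine ⟨b, a - b, by omega, ?_⟩
      rw [← Function.iterate_add_apply, show a - b + b = a by omega]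
      exact he
  set j := σ^[k] i with hj
  set H : ℂ → ℂ := tr σ h j p with hH
  have hHm : ∀ y : ℂ, ‖y‖ ≤ r → ‖H y‖ < r := by
    intro y hy
    obtain ⟨p', rfl⟩ : ∃ p', p = p' + 1 := ⟨p - 1, by omega⟩
    exact hm _ _ (h1 p' j y hy)
  have hHl : ∀ x y : ℂ, ‖x‖ ≤ r → ‖y‖ ≤ r → ‖H x - H y‖ ≤ (1 / 2) * ‖x - y‖ := by
    intro x y hx hy
    refine (h3 p j x y hx hy).trans (mul_le_mul_of_nonneg_right ?_ (norm_nonneg _))
    calc ((1 : ℝ) / 2) ^ p ≤ (1 / 2) ^ 1 :=
          pow_le_pow_of_le_one (by norm_num) (by norm_num) (by omega)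
      _ = 1 / 2 := by norm_num
  obtain ⟨q, hqr, hqfix, hqt⟩ := disc_contraction hr (by norm_num) (by norm_num) hHm hHl
  have hg2 : ∀ y : ℂ, ‖y‖ ≤ r → g^[p] (ψ j y) = ψ j (H y) := by
    intro y hy
    rw [h2 p j y hy, hkp]
  have hHk : ∀ k : ℕ, ∀ y : ℂ, ‖y‖ ≤ r → ‖H^[k] y‖ ≤ r := by
    intro k y hy
    induction k with
    | zero => simpa using hy
    | succ k ih => rw [Function.iterate_succ_apply']; exact (hHm _ ih).le
  have hg2k : ∀ k : ℕ, ∀ y : ℂ, ‖y‖ ≤ r → g^[p * k] (ψ j y) = ψ j (H^[k] y) := by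
    intro k y hy
    induction k with
    | zero => simp
    | succ k ih =>
      rw [show p * (k + 1) = p + p * k by ring, Function.iterate_add_apply, ih,
        hg2 _ (hHk k y hy), Function.iterate_succ_apply']
  have hlim : ∀ y : ℂ, ‖y‖ ≤ r → Tendsto (fun k : ℕ => g^[p * k] (ψ j y)) atTop (𝓝 (ψ j q)) := by
    intro y hy
    have h1 : Tendsto (fun k : ℕ => ψ j (H^[k] y)) atTop (𝓝 (ψ j q)) :=
      ((hcont j).tendsto q).comp (hqt y hy)
    refine h1.congr fun k => (hg2k k y hy).symm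
  apply sinks_of_iterate hg k
  rw [h2 k i x hx, ← hj]
  refine ⟨ψ j q, p, hp, ?_, ⟨ψ j '' Metric.ball 0 r, ?_, ?_⟩, hlim _ (h1 k i x hx)⟩
  · rw [hg2 q hqr.le, hqfix]
  · exact (hopen j _ Metric.isOpen_ball).mem_nhds ⟨q, by simpa using hqr, rfl⟩
  · rintro w ⟨y, hy, rfl⟩
    exact hlim y (by simpa using (Metric.mem_ball.1 hy).le)

/-- Discs in the plane, permuted by contractions: holomorphic version. -/
theorem discs {f : OnePoint ℂ → OnePoint ℂ} (hf : Continuous f) {ι : Type*} [Finite ι]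
    {t : ι → ℂ} {σ : ι → ι} {F : ℂ → ℂ} {r : ℝ} (hr : 0 < r)
    (hF : ∀ i, ∀ w ∈ ball (t i) (2 * r), f (w : OnePoint ℂ) = (F w : OnePoint ℂ))
    (hd : ∀ i, DifferentiableOn ℂ F (ball (t i) (2 * r)))
    (hm : ∀ i, ∀ w ∈ ball (t i) (2 * r), ‖F w - t (σ i)‖ ≤ r / 4)
    {i : ι} {w : ℂ} (hw : ‖w - t i‖ ≤ r) : Sinks f (w : OnePoint ℂ) := by
  have hw' : w = t i + (w - t i) := by ring
  rw [hw']
  refine fin_charts hf (ψ := fun i x => ((t i + x : ℂ) : OnePoint ℂ)) (σ := σ)
    (h := fun i x => F (t i + x) - t (σ i)) hr ?_ ?_ ?_ ?_ ?_ hw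
  · intro i
    exact OnePoint.continuous_coe.comp (continuous_const.add continuous_id)
  · intro i
    exact (OnePoint.isOpenEmbedding_coe (X := ℂ)).isOpenMap.comp (Homeomorph.addLeft (t i)).isOpenMap
  · intro i x hx
    rw [hF i _ (by rw [mem_ball_iff_norm, add_sub_cancel_left]; linarith)]
    congr 1
    ring
  · intro i x hx
    have := hm i (t i + x) (by rw [mem_ball_iff_norm, add_sub_cancel_left]; linarith)
    linarith
  · intro i x y hx hy
    have hder : ∀ z ∈ closedBall (t i) r, ‖deriv F z‖ ≤ 1 / 2 := by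
      intro z hz
      rw [mem_closedBall_iff_norm] at hz
      have hsub : closedBall z (r / 2) ⊆ ball (t i) (2 * r) := by
        intro u hu
        rw [mem_closedBall_iff_norm] at hu
        rw [mem_ball_iff_norm]
        calc ‖u - t i‖ = ‖(u - z) + (z - t i)‖ := by congr 1; ring
          _ ≤ ‖u - z‖ + ‖z - t i‖ := norm_add_le _ _
          _ < 2 * r := by linarith
      have h1 : DiffContOnCl ℂ (fun u => F u - t (σ i)) (ball z (r / 2)) := by
        refine DifferentiableOn.diffContOnCl ?_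
        rw [closure_ball _ (by positivity)]
        exact ((hd i).mono hsub).sub_const _
      have h2 := Complex.norm_deriv_le_of_forall_mem_sphere_norm_le (by positivity) h1
        fun u hu => hm i u (hsub (sphere_subset_closedBall hu))
      rw [deriv_sub_const] at h2
      calc ‖deriv F z‖ ≤ r / 4 / (r / 2) := h2
        _ = 1 / 2 := by field_simp; norm_num
    have h3 := (convex_closedBall (t i) r).norm_image_sub_le_of_norm_deriv_le (𝕜 := ℂ)
      (f := F) (C := 1 / 2) (x := t i + y) (y := t i + x) (fun z hz => ?_) hder ?_ ?_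
    · rw [add_sub_add_left_eq_sub] at h3
      rw [sub_sub_sub_cancel_right]
      exact h3
    · have : z ∈ ball (t i) (2 * r) := closedBall_subset_ball (by linarith) hz
      exact (hd i).differentiableAt (isOpen_ball.mem_nhds this)
    · rw [mem_closedBall_iff_norm, add_sub_cancel_left]; exact hy
    · rw [mem_closedBall_iff_norm, add_sub_cancel_left]; exact hx

end Pool.Agent.Q186.RI
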