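import Mathlib
import Pool.Agent.Q186.RI.Ch

/-! Finitely many discs of the sphere (around points of the plane, or around infinity) permuted by
a rational map (helper186). -/

set_option autoImplicit false

open Topology Filter Metric Set
open scoped OnePoint

namespace Pool.Agent.Q186.RI

open Pool.Agent.H762R2.Rt Pool.Agent.H462R2.AP Pool.Agent.Helper114.Herman
open Pool.Agent.Helper114.Konig

/-- charts: `x ↦ t + x`, and `x ↦ 1 / (κ x)` -/
noncomputable def cht (κ : ℝ) : Option ℂ → ℂ → OnePoint ℂ
  | some t, x => ((t + x : ℂ) : OnePoint ℂ)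
  | none, x => sinv ((κ * x : ℂ) : OnePoint ℂ)

/-- homogeneous coordinates -/
noncomputable def al : Option ℂ → ℂ → ℂ
  | some t, x => t + x
  | none, _ => 1

noncomputable def be (κ : ℝ) : Option ℂ → ℂ → ℂ
  | some _, _ => 1
  | none, x => κ * x

/-- the coordinate of `u / v` -/
noncomputable def co' (κ : ℝ) : Option ℂ → ℂ → ℂ → ℂ
  | some t, u, v => u / v - t
  | none, u, v => v / (κ * u)

theorem al_be (κ : ℝ) (o : Option ℂ) (x : ℂ) : al o x ≠ 0 ∨ be κ o x ≠ 0 := by
  cases o with
  | none => exact Or.inl one_ne_zero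
  | some t => exact Or.inr one_ne_zero

theorem cht_pr (κ : ℝ) (o : Option ℂ) (x : ℂ) : cht κ o x = pr (al o x) (be κ o x) := by
  cases o with
  | none =>
    show sinv ((κ * x : ℂ) : OnePoint ℂ) = pr 1 (κ * x)
    rw [← sinv_pr (u := κ * x) (v := 1) (Or.inr one_ne_zero), pr_one]
  | some t => exact (pr_one _).symm

theorem al_diff (o : Option ℂ) : Differentiable ℂ (al o) := by
  cases o with
  | none => exact differentiable_const _
  | some t => exact (differentiable_const _).add differentiable_id

theorem be_diff (κ : ℝ) (o : Option ℂ) : Differentiable ℂ (be κ o) := by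
  cases o with
  | none => exact (differentiable_const _).mul differentiable_id
  | some t => exact differentiable_const _

theorem co_eq {κ : ℝ} (hκ : κ ≠ 0) {o : Option ℂ} {u v y : ℂ} (h0 : u ≠ 0 ∨ v ≠ 0)
    (h : pr u v = cht κ o y) : y = co' κ o u v ∧ (∀ t, o = some t → v ≠ 0) ∧
      (o = none → (κ : ℂ) * u ≠ 0) := by
  have hκ' : (κ : ℂ) ≠ 0 := by exact_mod_cast hκ
  rw [cht_pr] at h
  have h1 := pr_eq_pr h0 (al_be κ o y) h
  cases o with
  | none =>
    simp only [al, be, one_mul] at h1
    have hu : u ≠ 0 := by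
      rintro rfl
      rw [zero_mul] at h1
      rcases h0 with h0 | h0
      · exact h0 rfl
      · exact h0 h1.symm
    have hκu := mul_ne_zero hκ' hu
    refine ⟨?_, fun t ht => by simp at ht, fun _ => hκu⟩
    show y = v / (κ * u)
    rw [eq_div_iff hκu, ← h1]
    ring
  | some t =>
    simp only [al, be, mul_one] at h1
    have hv : v ≠ 0 := by
      rintro rfl
      rw [mul_zero] at h1
      rcases h0 with h0 | h0
      · exact h0 h1
      · exact h0 rfl
    refine ⟨?_, fun _ _ => hv, fun h => by simp at h⟩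
    show y = u / v - t
    rw [h1]
    field_simp
    ring

theorem continuous_cht (κ : ℝ) (o : Option ℂ) : Continuous (cht κ o) := by
  cases o with
  | none =>
    exact continuous_sinv.comp (OnePoint.continuous_coe.comp (continuous_const.mul continuous_id))
  | some t => exact OnePoint.continuous_coe.comp (continuous_const.add continuous_id)

theorem isOpenMap_cht {κ : ℝ} (hκ : κ ≠ 0) (o : Option ℂ) : IsOpenMap (cht κ o) := by
  have hκ' : (κ : ℂ) ≠ 0 := by exact_mod_cast hκ
  cases o with
  | none =>
    exact sinvHomeo.isOpenMap.comp ((OnePoint.isOpenEmbedding_coe (X := ℂ)).isOpenMap.comp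
      (Homeomorph.mulLeft₀ (κ : ℂ) hκ').isOpenMap)
  | some t =>
    exact (OnePoint.isOpenEmbedding_coe (X := ℂ)).isOpenMap.comp (Homeomorph.addLeft t).isOpenMap

/-- Discs on the sphere permuted by a rational map. -/
theorem discs_rat {f : OnePoint ℂ → OnePoint ℂ} {P' Q' : Polynomial ℂ} (hf : IsRat f P' Q')
    (hd0 : 0 < max P'.natDegree Q'.natDegree) {ι : Type*} [Finite ι]
    {o : ι → Option ℂ} {σ : ι → ι} {r κ : ℝ} (hr : 0 < r) (hκ : κ ≠ 0)
    (hm : ∀ i x, ‖x‖ < 2 * r → ∃ y, ‖y‖ ≤ r / 4 ∧ f (cht κ (o i) x) = cht κ (o (σ i)) y)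
    {i : ι} {x : ℂ} (hx : ‖x‖ ≤ r) : Sinks f (cht κ (o i) x) := by
  set d := max P'.natDegree Q'.natDegree with hd
  set U : ι → ℂ → ℂ := fun i x => hom P' d (al (o i) x) (be κ (o i) x) with hU
  set V : ι → ℂ → ℂ := fun i x => hom Q' d (al (o i) x) (be κ (o i) x) with hV
  have hUd : ∀ i, Differentiable ℂ (U i) := by
    intro i
    have h1 := al_diff (o i)
    have h2 := be_diff κ (o i)
    rw [hU]; unfold hom
    fun_prop
  have hVd : ∀ i, Differentiable ℂ (V i) := by
    intro i
    have h1 := al_diff (o i)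
    have h2 := be_diff κ (o i)
    rw [hV]; unfold hom
    fun_prop
  have hne : ∀ i x, U i x ≠ 0 ∨ V i x ≠ 0 := fun i x =>
    hom_not_both hf.cop hd (al_be κ (o i) x) hd0
  have hfx : ∀ i x, f (cht κ (o i) x) = pr (U i x) (V i x) := by
    intro i x
    rw [cht_pr]
    exact rat_formula hf hd hd0 (al_be κ (o i) x)
  set h : ι → ℂ → ℂ := fun i x => co' κ (o (σ i)) (U i x) (V i x) with hh
  have key : ∀ i x, ‖x‖ < 2 * r → ‖h i x‖ ≤ r / 4 ∧ f (cht κ (o i) x) = cht κ (o (σ i)) (h i x) ∧
      DifferentiableAt ℂ (h i) x := by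
    intro i x hx
    obtain ⟨y, hy1, hy2⟩ := hm i x hx
    have h1 := co_eq hκ (hne i x) ((hfx i x).symm.trans hy2)
    obtain ⟨h2, h3, h4⟩ := h1
    have h2' : h i x = y := h2.symm
    refine ⟨h2' ▸ hy1, h2' ▸ hy2, ?_⟩
    rcases ho : o (σ i) with _ | t
    · have e : h i = fun x => V i x / (κ * U i x) := by
        funext x
        show co' κ (o (σ i)) (U i x) (V i x) = _
        rw [ho]
        rfl
      rw [e]
      exact (hVd i x).div ((differentiableAt_const _).mul (hUd i x)) (h4 ho)
    · have e : h i = fun x => U i x / V i x - t := by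
        funext x
        show co' κ (o (σ i)) (U i x) (V i x) = _
        rw [ho]
        rfl
      rw [e]
      exact ((hUd i x).div (hVd i x) (h3 t ho)).sub_const t
  refine fin_charts hf.cont (ψ := fun i => cht κ (o i)) (σ := σ) (h := h) hr
    (fun i => continuous_cht κ _) (fun i => isOpenMap_cht hκ _) (fun i x hx => ?_)
    (fun i x hx => ?_) (fun i x y hx hy => ?_) hx
  · exact (key i x (by linarith)).2.1
  · have := (key i x (by linarith)).1
    linarith
  · have hder : ∀ z ∈ closedBall (0 : ℂ) r, ‖deriv (h i) z‖ ≤ 1 / 2 := by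
      intro z hz
      rw [mem_closedBall_zero_iff] at hz
      have hsub : ∀ u ∈ closedBall z (r / 2), ‖u‖ < 2 * r := by
        intro u hu
        rw [mem_closedBall_iff_norm] at hu
        calc ‖u‖ = ‖(u - z) + z‖ := by congr 1; ring
          _ ≤ ‖u - z‖ + ‖z‖ := norm_add_le _ _
          _ < 2 * r := by linarith
      have h1 : DiffContOnCl ℂ (h i) (ball z (r / 2)) := by
        refine DifferentiableOn.diffContOnCl ?_
        rw [closure_ball _ (by positivity)]
        exact fun u hu => (key i u (hsub u hu)).2.2.differentiableWithinAt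
      have h2 := Complex.norm_deriv_le_of_forall_mem_sphere_norm_le (by positivity) h1
        fun u hu => (key i u (hsub u (sphere_subset_closedBall hu))).1
      calc ‖deriv (h i) z‖ ≤ r / 4 / (r / 2) := h2
        _ = 1 / 2 := by field_simp; norm_num
    exact (convex_closedBall (0 : ℂ) r).norm_image_sub_le_of_norm_deriv_le (𝕜 := ℂ)
      (f := h i) (C := 1 / 2) (x := y) (y := x) (fun z hz => by
        rw [mem_closedBall_zero_iff] at hz
        exact (key i z (by linarith)).2.2) hder
      (mem_closedBall_zero_iff.mpr hy) (mem_closedBall_zero_iff.mpr hx)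

end Pool.Agent.Q186.RI
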