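import Mathlib
import Pool.Agent.Q186.RI.Ch2
import Pool.Agent.Q186.AZ.Rate

/-! The sphere map `R ∘ g^n + s`, `R = P / Q` (helper186). -/

set_option autoImplicit false

open Topology Filter Metric Set Polynomial
open scoped OnePoint

namespace Pool.Agent.Q186.RI

open Pool.Agent.H762R2.Rt Pool.Agent.H462R2.AP Pool.Agent.Helper114.Herman
open Pool.Agent.Helper114.Konig
open Pool.Agent.H713R5.QJ (ev)
open Pool.Agent.H400R3.HI (ev_diff ev_comp exists_crit_iter)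

/-- the value of `P / Q` -/
noncomputable def rv (P Q : ℂ[X]) (y : ℂ) : ℂ := P.eval y / Q.eval y

/-- numerator of `R ∘ g^n + s` -/
noncomputable def nu (g P Q : ℂ[X]) (n : ℕ) (s : ℂ) : ℂ[X] := (P + C s * Q).comp (g.comp^[n] X)

/-- denominator of `R ∘ g^n + s` -/
noncomputable def de (g Q : ℂ[X]) (n : ℕ) : ℂ[X] := Q.comp (g.comp^[n] X)

/-- the target of the pair `(p, q)` -/
noncomputable def tgt (p q s : ℂ) : Option ℂ :=
  open Classical in if q = 0 then none else some (p / q + s)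

/-- the target of a point -/
noncomputable def oa (P Q : ℂ[X]) (s a : ℂ) : Option ℂ := tgt (P.eval a) (Q.eval a) s

/-- the degree -/
noncomputable def Dg (P Q : ℂ[X]) : ℕ := max P.natDegree Q.natDegree

/-- the target of infinity -/
noncomputable def oi (P Q : ℂ[X]) (s : ℂ) : Option ℂ :=
  tgt (P.coeff (Dg P Q)) (Q.coeff (Dg P Q)) s

variable {g P Q : ℂ[X]}

theorem de_eval (n : ℕ) (z : ℂ) : (de g Q n).eval z = Q.eval ((ev g)^[n] z) :=
  congrFun (ev_comp Q g n) z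

theorem nu_eval (n : ℕ) (s z : ℂ) :
    (nu g P Q n s).eval z = P.eval ((ev g)^[n] z) + s * Q.eval ((ev g)^[n] z) := by
  have h : (nu g P Q n s).eval z = (P + C s * Q).eval ((ev g)^[n] z) :=
    congrFun (ev_comp (P + C s * Q) g n) z
  rw [h, eval_add, eval_mul, eval_C]

theorem cop (hc : IsCoprime P Q) (n : ℕ) (s : ℂ) : IsCoprime (nu g P Q n s) (de g Q n) := by
  obtain ⟨a, b, hab⟩ := hc
  refine ⟨a.comp (g.comp^[n] X), b.comp (g.comp^[n] X) - C s * a.comp (g.comp^[n] X), ?_⟩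
  have h1 := congrArg (fun p : ℂ[X] => p.comp (g.comp^[n] X)) hab
  simp only [add_comp, mul_comp, one_comp] at h1
  unfold nu de
  rw [add_comp, mul_comp, C_comp, ← h1]
  ring

theorem deg_max (P Q : ℂ[X]) (s : ℂ) :
    max (P + C s * Q).natDegree Q.natDegree = max P.natDegree Q.natDegree := by
  have h1 : (C s * Q).natDegree ≤ Q.natDegree := natDegree_C_mul_le _ _
  rcases lt_or_ge Q.natDegree P.natDegree with h | h
  · rw [natDegree_add_eq_left_of_natDegree_lt (by omega)]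
  · have h2 : (P + C s * Q).natDegree ≤ Q.natDegree :=
      (natDegree_add_le _ _).trans (max_le h h1)
    rw [max_eq_right h2, max_eq_right h]

theorem deg_eq (n : ℕ) (s : ℂ) :
    max (nu g P Q n s).natDegree (de g Q n).natDegree =
      max P.natDegree Q.natDegree * g.natDegree ^ n := by
  unfold nu de
  rw [natDegree_comp, natDegree_comp, ← deg_max P Q s, natDegree_iterate_comp, natDegree_X, mul_one]
  rcases le_total (P + C s * Q).natDegree Q.natDegree with h | h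
  · rw [max_eq_right h, max_eq_right (Nat.mul_le_mul_right _ h)]
  · rw [max_eq_left h, max_eq_left (Nat.mul_le_mul_right _ h)]

theorem de_ne (hg : 1 ≤ g.natDegree) (hQ : Q ≠ 0) (n : ℕ) : de g Q n ≠ 0 := by
  intro h
  obtain ⟨z, hz⟩ : ∃ z : ℂ, Q.eval z ≠ 0 := by
    by_contra hcon
    push Not at hcon
    exact hQ (funext fun z => by rw [hcon z, eval_zero])
  have hsurj : ∀ n : ℕ, Function.Surjective (ev g)^[n] := by
    intro n
    refine Function.Surjective.iterate (fun w => ?_) n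
    obtain ⟨x, hx⟩ := Complex.exists_root (f := g - C w) (by
      rw [degree_sub_C (natDegree_pos_iff_degree_pos.mp (by omega))]
      exact natDegree_pos_iff_degree_pos.mp (by omega))
    exact ⟨x, by show g.eval x = w; simpa [IsRoot, sub_eq_zero] using hx⟩
  obtain ⟨x, hx⟩ := hsurj n z
  apply hz
  rw [← hx, ← de_eval, h, eval_zero]

/-- the local form of `R + s` -/
theorem near {p q : ℂ → ℂ} (hp : DifferentiableAt ℂ p 0) (hq : DifferentiableAt ℂ q 0)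
    (h0 : p 0 ≠ 0 ∨ q 0 ≠ 0) (S : ℝ) : ∃ K δ : ℝ, 0 < K ∧ 0 < δ ∧ ∀ u : ℂ, ‖u‖ ≤ δ → ∀ s : ℂ,
    (‖s‖ ≤ S ∨ q 0 ≠ 0) → ∀ κ : ℝ, 1 ≤ κ →
      ∃ y, ‖y‖ ≤ K * ‖u‖ ∧ pr (p u + s * q u) (q u) = cht κ (tgt (p 0) (q 0) s) y := by
  by_cases hq0 : q 0 = 0
  · have hp0 : p 0 ≠ 0 := h0.resolve_right (not_not.mpr hq0)
    have hp0' : 0 < ‖p 0‖ := norm_pos_iff.mpr hp0
    obtain ⟨K, hK, h1⟩ := hq.hasDerivAt.isBigO_sub.exists_pos
    rw [Asymptotics.IsBigOWith] at h1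
    have h2 : ∀ᶠ u in 𝓝 (0 : ℂ), ‖p 0‖ / 2 < ‖p u‖ :=
      hp.continuousAt.norm.eventually (lt_mem_nhds (by linarith))
    obtain ⟨ε, hε, h3⟩ := Metric.eventually_nhds_iff.mp (h1.and h2)
    set S' : ℝ := max S 0 with hS'
    have hS0 : 0 ≤ S' := le_max_right _ _
    refine ⟨4 * K / ‖p 0‖, min (ε / 2) (‖p 0‖ / (4 * (K * (S' + 1)))), by positivity,
      by positivity, fun u hu s hs κ hκ => ?_⟩
    have hu1 : ‖u‖ ≤ ε / 2 := hu.trans (min_le_left _ _)
    have hu2 : ‖u‖ ≤ ‖p 0‖ / (4 * (K * (S' + 1))) := hu.trans (min_le_right _ _)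
    obtain ⟨h4, h5⟩ := h3 (show dist u 0 < ε by rw [dist_zero_right]; linarith)
    rw [hq0, sub_zero, sub_zero] at h4
    have hs' : ‖s‖ ≤ S' := by
      rcases hs with hs | hs
      · exact hs.trans (le_max_left _ _)
      · exact absurd hq0 hs
    have h6 : ‖s * q u‖ ≤ ‖p 0‖ / 4 := by
      rw [norm_mul]
      rw [le_div_iff₀ (by positivity)] at hu2
      calc ‖s‖ * ‖q u‖ ≤ (S' + 1) * (K * ‖u‖) :=
            mul_le_mul (by linarith) h4 (norm_nonneg _) (by linarith)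
        _ = ‖u‖ * (4 * (K * (S' + 1))) / 4 := by ring
        _ ≤ ‖p 0‖ / 4 := by linarith
    have h7 : ‖p 0‖ / 4 ≤ ‖p u + s * q u‖ := by
      have := norm_sub_le_norm_add (p u) (s * q u)
      linarith
    have h8 : p u + s * q u ≠ 0 := by
      intro h
      rw [h, norm_zero] at h7
      linarith
    have hκ0 : 0 < κ := by linarith
    have hκ' : (κ : ℂ) ≠ 0 := by exact_mod_cast hκ0.ne'
    refine ⟨q u / (κ * (p u + s * q u)), ?_, ?_⟩
    · rw [norm_div, norm_mul, Complex.norm_real, Real.norm_of_nonneg hκ0.le, div_le_iff₀ (by positivity)]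
      calc ‖q u‖ ≤ K * ‖u‖ := h4
        _ = 4 * K / ‖p 0‖ * ‖u‖ * (1 * (‖p 0‖ / 4)) := by field_simp
        _ ≤ 4 * K / ‖p 0‖ * ‖u‖ * (κ * ‖p u + s * q u‖) := by
            refine mul_le_mul_of_nonneg_left ?_ (by positivity)
            exact mul_le_mul hκ h7 (by positivity) hκ0.le
    · have e : tgt (p 0) (q 0) s = none := by unfold tgt; rw [if_pos hq0]
      rw [e, cht_pr]
      show _ = pr 1 (κ * (q u / (κ * (p u + s * q u))))
      have e2 : (κ : ℂ) * (q u / (κ * (p u + s * q u))) = q u / (p u + s * q u) := by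
        field_simp
      rw [e2, ← pr_smul (u := 1) (v := q u / (p u + s * q u)) h8]
      congr 1
      · ring
      · exact (mul_div_cancel₀ (q u) h8).symm
  · have hdiff : DifferentiableAt ℂ (fun u => p u / q u) 0 := hp.div hq hq0
    obtain ⟨K, hK, h1⟩ := hdiff.hasDerivAt.isBigO_sub.exists_pos
    rw [Asymptotics.IsBigOWith] at h1
    obtain ⟨ε, hε, h2⟩ := Metric.eventually_nhds_iff.mp
      (h1.and (hq.continuousAt.eventually_ne hq0))
    refine ⟨K, ε / 2, hK, by positivity, fun u hu s _ κ _ => ?_⟩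
    obtain ⟨h3, h4⟩ := h2 (show dist u 0 < ε by rw [dist_zero_right]; linarith)
    rw [sub_zero] at h3
    refine ⟨p u / q u - p 0 / q 0, h3, ?_⟩
    have e : tgt (p 0) (q 0) s = some (p 0 / q 0 + s) := by unfold tgt; rw [if_neg hq0]
    rw [e, pr_ne h4]
    show _ = ((p 0 / q 0 + s + (p u / q u - p 0 / q 0) : ℂ) : OnePoint ℂ)
    congr 1
    field_simp
    ring

theorem near_a (hc : IsCoprime P Q) (a : ℂ) (S : ℝ) : ∃ K δ : ℝ, 0 < K ∧ 0 < δ ∧
    ∀ w : ℂ, dist w a ≤ δ → ∀ s : ℂ, (‖s‖ ≤ S ∨ Q.eval a ≠ 0) → ∀ κ : ℝ, 1 ≤ κ →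
      ∃ y, ‖y‖ ≤ K * dist w a ∧ pr (P.eval w + s * Q.eval w) (Q.eval w) = cht κ (oa P Q s a) y := by
  have h0 : P.eval (a + 0) ≠ 0 ∨ Q.eval (a + 0) ≠ 0 := by
    rw [add_zero]
    by_contra hcon
    push Not at hcon
    obtain ⟨b, c, hbc⟩ := hc
    have := congrArg (eval a) hbc
    rw [eval_add, eval_mul, eval_mul, hcon.1, hcon.2, mul_zero, mul_zero, add_zero, eval_one] at this
    exact zero_ne_one this
  obtain ⟨K, δ, hK, hδ, h⟩ := near (p := fun u => P.eval (a + u)) (q := fun u => Q.eval (a + u))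
    (by fun_prop) (by fun_prop) h0 S
  refine ⟨K, δ, hK, hδ, fun w hw s hs κ hκ => ?_⟩
  rw [dist_eq_norm] at hw ⊢
  obtain ⟨y, h1, h2⟩ := h (w - a) hw s (by simpa using hs) κ hκ
  refine ⟨y, h1, ?_⟩
  simp only [add_sub_cancel, add_zero] at h2
  exact h2

theorem hom_one_zero (T : ℂ[X]) (D : ℕ) : hom T D 1 0 = T.coeff D := by
  rw [hom_zero]; simp

theorem near_i (hc : IsCoprime P Q) (hd : 0 < Dg P Q) (S : ℝ) : ∃ K Y : ℝ, 0 < K ∧ 0 < Y ∧
    ∀ w : ℂ, Y ≤ ‖w‖ → ∀ s : ℂ, (‖s‖ ≤ S ∨ Q.coeff (Dg P Q) ≠ 0) → ∀ κ : ℝ, 1 ≤ κ →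
      ∃ y, ‖y‖ ≤ K / ‖w‖ ∧ pr (P.eval w + s * Q.eval w) (Q.eval w) = cht κ (oi P Q s) y := by
  have hpd : Differentiable ℂ (fun u => hom P (Dg P Q) 1 u) := by unfold hom; fun_prop
  have hqd : Differentiable ℂ (fun u => hom Q (Dg P Q) 1 u) := by unfold hom; fun_prop
  obtain ⟨K, δ, hK, hδ, h⟩ := near (hpd 0) (hqd 0)
    (hom_not_both hc rfl (Or.inl one_ne_zero) hd) S
  refine ⟨K, 1 / δ, hK, by positivity, fun w hw s hs κ hκ => ?_⟩
  have hw0 : 0 < ‖w‖ := lt_of_lt_of_le (by positivity) hw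
  have hw0' : w ≠ 0 := norm_pos_iff.mp hw0
  have hu0 : w⁻¹ ≠ 0 := inv_ne_zero hw0'
  have hu : ‖w⁻¹‖ ≤ δ := by
    rw [norm_inv]
    calc ‖w‖⁻¹ ≤ (1 / δ)⁻¹ := inv_anti₀ (by positivity) hw
      _ = δ := by rw [one_div, inv_inv]
  obtain ⟨y, h1, h2⟩ := h w⁻¹ hu s (by simpa [hom_one_zero] using hs) κ hκ
  refine ⟨y, ?_, ?_⟩
  · rw [norm_inv] at h1
    rw [div_eq_mul_inv]
    exact h1
  · have e1 : ∀ T : ℂ[X], T.natDegree ≤ Dg P Q → hom T (Dg P Q) 1 w⁻¹ = w⁻¹ ^ Dg P Q * T.eval w := by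
      intro T hT
      rw [hom_ne hT hu0, one_div, inv_inv]
    rw [e1 P (le_max_left _ _), e1 Q (le_max_right _ _)] at h2
    rw [hom_one_zero, hom_one_zero] at h2
    have h3 : pr (P.eval w + s * Q.eval w) (Q.eval w) =
        pr (w⁻¹ ^ Dg P Q * P.eval w + s * (w⁻¹ ^ Dg P Q * Q.eval w)) (w⁻¹ ^ Dg P Q * Q.eval w) := by
      rw [← pr_smul (pow_ne_zero (Dg P Q) hu0)]
      congr 1
      ring
    rw [h3, h2]
    rfl

section sphere

variable {n : ℕ} {s : ℂ} {f : OnePoint ℂ → OnePoint ℂ}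

theorem deg_pos (hg : 2 ≤ g.natDegree) (hd : 0 < Dg P Q) (n : ℕ) (s : ℂ) :
    0 < max (nu g P Q n s).natDegree (de g Q n).natDegree := by
  rw [deg_eq]
  exact Nat.mul_pos hd (pow_pos (by omega) n)

theorem f_pr (hf : IsRat f (nu g P Q n s) (de g Q n)) (hg : 2 ≤ g.natDegree) (hd : 0 < Dg P Q)
    (z : ℂ) : f (z : OnePoint ℂ) =
      pr (P.eval ((ev g)^[n] z) + s * Q.eval ((ev g)^[n] z)) (Q.eval ((ev g)^[n] z)) := by
  have e1 := rat_formula hf rfl (deg_pos hg hd n s) (u := z) (v := 1) (Or.inr one_ne_zero)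
  rw [pr_one, hom_ne (P := de g Q n) (le_max_right _ _) one_ne_zero,
    hom_ne (P := nu g P Q n s) (le_max_left _ _) one_ne_zero, div_one, one_pow, one_mul, one_mul,
    de_eval, nu_eval] at e1
  exact e1

theorem f_fin (hf : IsRat f (nu g P Q n s) (de g Q n)) (hg : 2 ≤ g.natDegree) (hd : 0 < Dg P Q)
    {z : ℂ} (hz : Q.eval ((ev g)^[n] z) ≠ 0) :
    f (z : OnePoint ℂ) = ((rv P Q ((ev g)^[n] z) + s : ℂ) : OnePoint ℂ) := by
  rw [f_pr hf hg hd, pr_ne hz]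
  congr 1
  unfold rv
  field_simp

theorem tend_inf (hg : 2 ≤ g.natDegree) (n : ℕ) :
    Tendsto (fun z : ℂ => ‖(ev g)^[n] z‖) (cocompact ℂ) atTop := by
  obtain ⟨R, hR⟩ := Pool.Agent.H400R3.HI.two_bound hg
  set R' := max 1 R with hR'
  have hR0 : 0 < R' := lt_of_lt_of_le one_pos (le_max_left _ _)
  have h1 := hR R' (le_max_right _ _)
  refine tendsto_atTop_mono' _ ?_ (tendsto_norm_cocompact_atTop (E := ℂ))
  filter_upwards [(tendsto_norm_cocompact_atTop (E := ℂ)).eventually_ge_atTop R'] with z hz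
  have h2 := Pool.Agent.H400R3.HI.pow_le_iter hR0 h1 hz n
  refine le_trans ?_ h2
  exact le_mul_of_one_le_left (norm_nonneg _) (one_le_pow₀ (by norm_num))

theorem f_inf (hf : IsRat f (nu g P Q n s) (de g Q n)) (hg : 2 ≤ g.natDegree) (hd : 0 < Dg P Q)
    (hc : IsCoprime P Q) {κ : ℝ} (hκ : 1 ≤ κ) : f ∞ = cht κ (oi P Q s) 0 := by
  obtain ⟨K, Y, hK, hY, h⟩ := near_i hc hd ‖s‖
  have h0 := tend_inf (g := g) hg n
  have h1 : Tendsto (fun z : ℂ => f (z : OnePoint ℂ)) (cocompact ℂ) (𝓝 (f ∞)) := by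
    have h1 := OnePoint.tendsto_coe_infty (X := ℂ)
    rw [coclosedCompact_eq_cocompact] at h1
    exact (hf.cont.tendsto ∞).comp h1
  have h2 : ∀ w : ℂ, ∃ y, Y ≤ ‖w‖ → ‖y‖ ≤ K / ‖w‖ ∧
      pr (P.eval w + s * Q.eval w) (Q.eval w) = cht κ (oi P Q s) y := by
    intro w
    by_cases hw : Y ≤ ‖w‖
    · obtain ⟨y, hy⟩ := h w hw s (Or.inl le_rfl) κ hκ
      exact ⟨y, fun _ => hy⟩
    · exact ⟨0, fun h => absurd h hw⟩
  choose y hy using h2
  have h3 : Tendsto (fun z : ℂ => y ((ev g)^[n] z)) (cocompact ℂ) (𝓝 0) := by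
    rw [tendsto_zero_iff_norm_tendsto_zero]
    refine squeeze_zero' (Eventually.of_forall fun _ => norm_nonneg _) ?_
      (h0.const_div_atTop K)
    filter_upwards [h0.eventually_ge_atTop Y] with z hz
    exact (hy _ hz).1
  have h4 : Tendsto (fun z : ℂ => f (z : OnePoint ℂ)) (cocompact ℂ) (𝓝 (cht κ (oi P Q s) 0)) := by
    refine (((continuous_cht κ (oi P Q s)).tendsto 0).comp h3).congr' ?_
    filter_upwards [h0.eventually_ge_atTop Y] with z hz
    rw [f_pr hf hg hd]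
    exact ((hy _ hz).2).symm
  exact tendsto_nhds_unique h1 h4

/-- the critical points -/
theorem crit (hf : IsRat f (nu g P Q n s) (de g Q n)) (hg : 2 ≤ g.natDegree) (hd : 0 < Dg P Q)
    {z : ℂ} (hz : ¬ ∃ U ∈ 𝓝 (z : OnePoint ℂ), Set.InjOn f U) (hQz : Q.eval ((ev g)^[n] z) ≠ 0) :
    (wro P Q).eval ((ev g)^[n] z) = 0 ∨ ∃ j < n, (derivative g).eval ((ev g)^[j] z) = 0 := by
  by_contra hcon
  push Not at hcon
  obtain ⟨hw, hj⟩ := hcon
  apply hz
  have hG := ev_diff g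
  have hder : deriv (ev g)^[n] z ≠ 0 := by
    intro h0
    obtain ⟨j, hj1, hj2⟩ := exists_crit_iter hG n h0
    refine hj j hj1 ?_
    rw [← hj2]
    exact (Polynomial.deriv _).symm
  have h1 : HasStrictDerivAt (fun u : ℂ => P.eval u / Q.eval u + s)
      (((derivative P).eval ((ev g)^[n] z) * Q.eval ((ev g)^[n] z) -
        P.eval ((ev g)^[n] z) * (derivative Q).eval ((ev g)^[n] z)) / Q.eval ((ev g)^[n] z) ^ 2)
        ((ev g)^[n] z) :=
    ((P.hasStrictDerivAt _).fun_div (Q.hasStrictDerivAt _) hQz).add_const s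
  have h1' : HasStrictDerivAt (ev g)^[n] (deriv (ev g)^[n] z) z :=
    ((hG.iterate n).contDiff (n := 1)).contDiffAt.hasStrictDerivAt (by norm_num)
  have h2 := h1.comp z h1'
  have e : (derivative P).eval ((ev g)^[n] z) * Q.eval ((ev g)^[n] z) -
        P.eval ((ev g)^[n] z) * (derivative Q).eval ((ev g)^[n] z) =
          (wro P Q).eval ((ev g)^[n] z) := by
    unfold wro; simp
  rw [e] at h2
  obtain ⟨V', hV', hinj⟩ := injOn_of_deriv h2
    (mul_ne_zero (div_ne_zero hw (pow_ne_zero _ hQz)) hder)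
  have hO2 : {x : ℂ | Q.eval ((ev g)^[n] x) ≠ 0} ∈ 𝓝 z :=
    (isOpen_ne_fun (Q.continuous.comp (hG.iterate n).continuous) continuous_const).mem_nhds hQz
  refine ⟨(fun x : ℂ => (x : OnePoint ℂ)) '' (V' ∩ {x : ℂ | Q.eval ((ev g)^[n] x) ≠ 0}), ?_, ?_⟩
  · exact (OnePoint.isOpenEmbedding_coe (X := ℂ)).isOpenMap.image_mem_nhds
      (Filter.inter_mem hV' hO2)
  · rintro _ ⟨x, ⟨hx, hxQ⟩, rfl⟩ _ ⟨y, ⟨hy, hyQ⟩, rfl⟩ hxy
    simp only at hxy
    rw [f_fin hf hg hd hxQ, f_fin hf hg hd hyQ, OnePoint.coe_eq_coe] at hxy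
    rw [hinj hx hy hxy]

/-- the criterion -/
theorem hyp_of (hg : 2 ≤ g.natDegree) (hc : IsCoprime P Q) (hQ : Q ≠ 0) (hd : 0 < Dg P Q)
    (h : ∀ f : OnePoint ℂ → OnePoint ℂ, IsRat f (nu g P Q n s) (de g Q n) →
      Sinks f ∞ ∧
      (∀ y : ℂ, (wro P Q).eval y = 0 → Q.eval y ≠ 0 → Sinks f ((rv P Q y + s : ℂ) : OnePoint ℂ)) ∧
      ∀ c : ℂ, (derivative g).eval c = 0 → ∀ k, 1 ≤ k → k ≤ n → Q.eval ((ev g)^[k] c) ≠ 0 →
        Sinks f ((rv P Q ((ev g)^[k] c) + s : ℂ) : OnePoint ℂ)) :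
    Hyp (nu g P Q n s) (de g Q n) := by
  have hcop := cop (g := g) hc n s
  obtain ⟨f, hf, -⟩ := exists_isRat hcop (de_ne (by omega) hQ n)
  obtain ⟨hinf, h2, h3⟩ := h f hf
  refine ⟨hcop, f, hf.cont, hf.eval, fun c hnot => ?_⟩
  induction c using OnePoint.rec with
  | infty => exact hinf
  | coe z =>
    apply sinks_of_image hf.cont
    by_cases hQz : Q.eval ((ev g)^[n] z) = 0
    · rw [f_pr hf hg hd, hQz, pr_zero]
      exact hinf
    · rw [f_fin hf hg hd hQz]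
      rcases crit hf hg hd hnot hQz with hw | ⟨j, hj, hj0⟩
      · exact h2 _ hw hQz
      · have e1 : (ev g)^[n] z = (ev g)^[n - j] ((ev g)^[j] z) := by
          rw [← Function.iterate_add_apply, show n - j + j = n by omega]
        rw [e1] at hQz ⊢
        exact h3 _ hj0 _ (by omega) (by omega) hQz

end sphere

end Pool.Agent.Q186.RI
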