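import Mathlib
import Pool.Agent.Q186.RI.Rat

/-! The discs around the targets of `R ∘ g^n + s` (helper186). -/

set_option autoImplicit false

open Topology Filter Metric Set Polynomial
open scoped OnePoint

namespace Pool.Agent.Q186.RI

open Pool.Agent.H762R2.Rt Pool.Agent.H462R2.AP Pool.Agent.Helper114.Herman
open Pool.Agent.Helper114.Konig
open Pool.Agent.H713R5.QJ (ev)
open Pool.Agent.H400R3.HI (ev_diff pow_le_iter)

variable {g P Q : ℂ[X]} {A : Set ℂ}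

/-- `s` is admissible -/
def Ok (P Q : ℂ[X]) (A : Set ℂ) (S : ℝ) (s : ℂ) : Prop :=
  ‖s‖ ≤ S ∨ ((∀ a ∈ A, Q.eval a ≠ 0) ∧ Q.coeff (Dg P Q) ≠ 0)

/-- the local forms of `R + s` at the points of `A` and at infinity -/
structure Loc (P Q : ℂ[X]) (A : Set ℂ) (S N : ℝ) : Prop where
  pt : ∀ a ∈ A, ∀ w : ℂ, dist w a ≤ 1 / N → ∀ s : ℂ, Ok P Q A S s → ∀ κ : ℝ, 1 ≤ κ →
    ∃ y, ‖y‖ ≤ N * dist w a ∧ pr (P.eval w + s * Q.eval w) (Q.eval w) = cht κ (oa P Q s a) y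
  inf : ∀ w : ℂ, N ≤ ‖w‖ → ∀ s : ℂ, Ok P Q A S s → ∀ κ : ℝ, 1 ≤ κ →
    ∃ y, ‖y‖ ≤ N / ‖w‖ ∧ pr (P.eval w + s * Q.eval w) (Q.eval w) = cht κ (oi P Q s) y

theorem exists_loc (hc : IsCoprime P Q) (hd : 0 < Dg P Q) (hA : A.Finite) (S : ℝ) :
    ∃ N : ℝ, 1 ≤ N ∧ Loc P Q A S N := by
  have h1 : ∀ᶠ N : ℝ in atTop, ∀ a ∈ A, ∀ w : ℂ, dist w a ≤ 1 / N → ∀ s : ℂ, Ok P Q A S s →
      ∀ κ : ℝ, 1 ≤ κ → ∃ y, ‖y‖ ≤ N * dist w a ∧
        pr (P.eval w + s * Q.eval w) (Q.eval w) = cht κ (oa P Q s a) y := by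
    rw [Filter.eventually_all_finite hA]
    intro a ha
    obtain ⟨K, δ, hK, hδ, h⟩ := near_a hc a S
    filter_upwards [eventually_ge_atTop K, eventually_ge_atTop (1 / δ)] with N h1 h2 w hw s hs κ hκ
    have h3 : 0 < N := hK.trans_le h1
    have h4 : 1 / N ≤ δ := by
      rw [div_le_iff₀ h3]
      rw [div_le_iff₀ hδ] at h2
      linarith
    obtain ⟨y, h5, h6⟩ := h w (hw.trans h4) s (hs.imp id fun h => h.1 a ha) κ hκ
    exact ⟨y, h5.trans (mul_le_mul_of_nonneg_right h1 dist_nonneg), h6⟩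
  have h2 : ∀ᶠ N : ℝ in atTop, ∀ w : ℂ, N ≤ ‖w‖ → ∀ s : ℂ, Ok P Q A S s → ∀ κ : ℝ, 1 ≤ κ →
      ∃ y, ‖y‖ ≤ N / ‖w‖ ∧ pr (P.eval w + s * Q.eval w) (Q.eval w) = cht κ (oi P Q s) y := by
    obtain ⟨K, Y, hK, hY, h⟩ := near_i hc hd S
    filter_upwards [eventually_ge_atTop K, eventually_ge_atTop Y] with N h1 h2 w hw s hs κ hκ
    obtain ⟨y, h5, h6⟩ := h w (h2.trans hw) s (hs.imp id fun h => h.2) κ hκ
    exact ⟨y, h5.trans (div_le_div_of_nonneg_right h1 (norm_nonneg _)), h6⟩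
  obtain ⟨N, ⟨h3, h4⟩, h5⟩ := ((h1.and h2).and (eventually_ge_atTop 1)).exists
  exact ⟨N, h5, h3, h4⟩

/-- the targets -/
noncomputable def ot (P Q : ℂ[X]) (A : Set ℂ) (s : ℂ) : Option A → Option ℂ
  | none => oi P Q s
  | some a => oa P Q s a

/-- `g^n` maps the disc near a point of `A` or near infinity -/
def Go (G : ℂ → ℂ) (A : Set ℂ) (n : ℕ) (B ε : ℝ) (U : Set ℂ) : Prop :=
  (∀ w ∈ U, B ≤ ‖G^[n] w‖) ∨ ∃ a ∈ A, ∀ w ∈ U, dist (G^[n] w) a ≤ ε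

section
variable (hg : 2 ≤ g.natDegree) (hc : IsCoprime P Q) (hd : 0 < Dg P Q) (hA : A.Finite) {Rg : ℝ}
  (hRg : 0 < Rg) (hGR : ∀ w, Rg ≤ ‖w‖ → 2 * ‖w‖ ≤ ‖ev g w‖) {S N : ℝ} (hN : 1 ≤ N)
  (hloc : Loc P Q A S N) {n : ℕ} {s : ℂ} (hs : Ok P Q A S s) {f : OnePoint ℂ → OnePoint ℂ}
  (hf : IsRat f (nu g P Q n s) (de g Q n)) {r B ε : ℝ} (hr : 0 < r) (hrR : 2 * r * Rg ≤ 1)
  (hB : N ≤ B) (hB2 : N / B ≤ r / 4) (hB3 : B ≤ 2 ^ n * Rg) (hε : ε ≤ 1 / N)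
  (hε2 : N * ε ≤ r / 4)
  (hT : ∀ i : Option A, ∀ t, ot P Q A s i = some t → Go (ev g) A n B ε (ball t (2 * r)))

include hg hd hN hloc hs hf hrR hr hRg hB hB2 hε hε2 in
theorem uni_step {U : Set ℂ} (hU : Go (ev g) A n B ε U) :
    ∃ j : Option A, ∀ w ∈ U, ∃ y, ‖y‖ ≤ r / 4 ∧
      f (w : OnePoint ℂ) = cht (1 / (2 * r * Rg)) (ot P Q A s j) y := by
  have hκ1 : 1 ≤ 1 / (2 * r * Rg) := by rw [le_div_iff₀ (by positivity)]; linarith
  have hN0 : 0 < N := by linarith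
  rcases hU with h | ⟨a, ha, h⟩
  · refine ⟨none, fun w hw => ?_⟩
    obtain ⟨y, h1, h2⟩ := hloc.inf _ (hB.trans (h w hw)) s hs _ hκ1
    refine ⟨y, h1.trans (le_trans ?_ hB2), ?_⟩
    · exact div_le_div_of_nonneg_left hN0.le (hN0.trans_le hB) (h w hw)
    · rw [f_pr hf hg hd]; exact h2
  · refine ⟨some ⟨a, ha⟩, fun w hw => ?_⟩
    obtain ⟨y, h1, h2⟩ := hloc.pt a ha _ ((h w hw).trans hε) s hs _ hκ1
    refine ⟨y, h1.trans (le_trans ?_ hε2), ?_⟩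
    · exact mul_le_mul_of_nonneg_left (h w hw) hN0.le
    · rw [f_pr hf hg hd]; exact h2

include hg hc hd hA hRg hGR hN hloc hs hf hr hrR hB hB2 hB3 hε hε2 hT in
theorem uni_discs (i : Option A) {x : ℂ} (hx : ‖x‖ ≤ r) :
    Sinks f (cht (1 / (2 * r * Rg)) (ot P Q A s i) x) := by
  have hκ1 : 1 ≤ 1 / (2 * r * Rg) := by rw [le_div_iff₀ (by positivity)]; linarith
  have hN0 : 0 < N := by linarith
  set κ : ℝ := 1 / (2 * r * Rg) with hκ
  have hκ0 : 0 < κ := by linarith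
  have key : ∀ i : Option A, ∃ j : Option A, ∀ x : ℂ, ‖x‖ < 2 * r → ∃ y, ‖y‖ ≤ r / 4 ∧
      f (cht κ (ot P Q A s i) x) = cht κ (ot P Q A s j) y := by
    intro i
    rcases ho : ot P Q A s i with _ | t
    · refine ⟨none, fun x hx => ?_⟩
      by_cases hx0 : x = 0
      · refine ⟨0, by rw [norm_zero]; positivity, ?_⟩
        have e : cht κ none x = ∞ := by
          show sinv ((κ * x : ℂ) : OnePoint ℂ) = ∞
          rw [hx0, mul_zero, sinv_zero]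
        rw [e]
        exact f_inf hf hg hd hc hκ1
      · have hκx : (κ : ℂ) * x ≠ 0 := mul_ne_zero (by exact_mod_cast hκ0.ne') hx0
        have e : cht κ none x = (((κ * x)⁻¹ : ℂ) : OnePoint ℂ) := by
          show sinv ((κ * x : ℂ) : OnePoint ℂ) = _
          rw [sinv_coe hκx]
        have h1 : Rg ≤ ‖((κ : ℂ) * x)⁻¹‖ := by
          have hx0' : 0 < ‖x‖ := norm_pos_iff.mpr hx0
          rw [norm_inv, norm_mul, Complex.norm_real, Real.norm_of_nonneg hκ0.le]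
          rw [le_inv_comm₀ hRg (by positivity), hκ]
          calc 1 / (2 * r * Rg) * ‖x‖ ≤ 1 / (2 * r * Rg) * (2 * r) :=
                mul_le_mul_of_nonneg_left hx.le (by positivity)
            _ = Rg⁻¹ := by field_simp
        have h2 := pow_le_iter hRg hGR h1 n
        have h3 : B ≤ ‖(ev g)^[n] ((κ : ℂ) * x)⁻¹‖ := by
          refine hB3.trans (le_trans ?_ h2)
          exact mul_le_mul_of_nonneg_left h1 (by positivity)
        obtain ⟨y, h4, h5⟩ := hloc.inf _ (hB.trans h3) s hs _ hκ1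
        refine ⟨y, h4.trans (le_trans ?_ hB2), ?_⟩
        · exact div_le_div_of_nonneg_left hN0.le (hN0.trans_le hB) h3
        · rw [e, f_pr hf hg hd]; exact h5
    · obtain ⟨j, hj⟩ := uni_step hg hd hRg hN hloc hs hf hr hrR hB hB2 hε hε2 (hT i t ho)
      refine ⟨j, fun x hx => ?_⟩
      exact hj (t + x) (by rw [mem_ball_iff_norm, add_sub_cancel_left]; exact hx)
  choose σ hσ using key
  have : Finite A := hA.to_subtype
  exact discs_rat hf (deg_pos hg hd n s) (σ := σ) hr hκ0.ne' hσ hx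

include hg hc hd hA hRg hGR hN hloc hs hf hr hrR hB hB2 hB3 hε hε2 hT in
theorem uni_inf : Sinks f ∞ := by
  have hκ1 : 1 ≤ 1 / (2 * r * Rg) := by rw [le_div_iff₀ (by positivity)]; linarith
  apply sinks_of_image hf.cont
  rw [f_inf hf hg hd hc hκ1]
  exact uni_discs hg hc hd hA hRg hGR hN hloc hs hf hr hrR hB hB2 hB3 hε hε2 hT none
    (by rw [norm_zero]; exact hr.le)

include hg hc hd hA hRg hGR hN hloc hs hf hr hrR hB hB2 hB3 hε hε2 hT in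
theorem uni_pt {v : ℂ} (hv : Go (ev g) A n B ε {v}) : Sinks f (v : OnePoint ℂ) := by
  obtain ⟨j, hj⟩ := uni_step hg hd hRg hN hloc hs hf hr hrR hB hB2 hε hε2 hv
  obtain ⟨y, h1, h2⟩ := hj v rfl
  apply sinks_of_image hf.cont
  rw [h2]
  exact uni_discs hg hc hd hA hRg hGR hN hloc hs hf hr hrR hB hB2 hB3 hε hε2 hT j
    (by linarith)

include hg hc hd hA hRg hGR hN hloc hs hf hr hrR hB hB2 hB3 hε hε2 hT in
/-- points which are images under `R + s` of points close to `A` or infinity -/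
theorem uni_tail {w : ℂ} (hQ : Q.eval w ≠ 0) (hw : (∃ a ∈ A, dist w a ≤ ε) ∨ B ≤ ‖w‖) :
    Sinks f ((rv P Q w + s : ℂ) : OnePoint ℂ) := by
  have hκ1 : 1 ≤ 1 / (2 * r * Rg) := by rw [le_div_iff₀ (by positivity)]; linarith
  have hN0 : 0 < N := by linarith
  have e : ((rv P Q w + s : ℂ) : OnePoint ℂ) = pr (P.eval w + s * Q.eval w) (Q.eval w) := by
    rw [pr_ne hQ]
    congr 1
    unfold rv
    field_simp
  rw [e]
  rcases hw with ⟨a, ha, hwa⟩ | hwB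
  · obtain ⟨y, h1, h2⟩ := hloc.pt a ha w (hwa.trans hε) s hs _ hκ1
    rw [h2]
    refine uni_discs hg hc hd hA hRg hGR hN hloc hs hf hr hrR hB hB2 hB3 hε hε2 hT (some ⟨a, ha⟩) ?_
    have := mul_le_mul_of_nonneg_left hwa hN0.le
    linarith
  · obtain ⟨y, h1, h2⟩ := hloc.inf w (hB.trans hwB) s hs _ hκ1
    rw [h2]
    refine uni_discs hg hc hd hA hRg hGR hN hloc hs hf hr hrR hB hB2 hB3 hε hε2 hT none ?_
    have := div_le_div_of_nonneg_left hN0.le (hN0.trans_le hB) hwB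
    linarith

end

end Pool.Agent.Q186.RI
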