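import Mathlib
import Pool.Agent.Q186.RI.Uni

/-! `R ∘ g^n + s` is hyperbolic for all large `n` if the marked values are good (helper186). -/

set_option autoImplicit false

open Topology Filter Metric Set Polynomial MeasureTheory
open scoped OnePoint

namespace Pool.Agent.Q186.RI

open Pool.Agent.H762R2.Rt Pool.Agent.H462R2.AP Pool.Agent.Helper114.Herman
open Pool.Agent.Helper114.Konig
open Pool.Agent.H713R5.QJ (ev Good)
open Pool.Agent.H400R3.HI (ev_diff pow_le_iter Gd sinks sinks_finite common_period map_sinks good_iff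
  two_bound crit_finite iter_mem)
open Pool.Agent.Q186.AZ (fate_loc TC Land orbit_finite poly_null)

variable {g P Q : ℂ[X]} {A : Set ℂ}

theorem Go.mono {G : ℂ → ℂ} {n : ℕ} {B ε : ℝ} {U V : Set ℂ} (h : Go G A n B ε V) (hU : U ⊆ V) :
    Go G A n B ε U :=
  h.imp (fun h w hw => h w (hU hw)) fun ⟨a, ha, h⟩ => ⟨a, ha, fun w hw => h w (hU hw)⟩

theorem loc_go {G : ℂ → ℂ} (hG : Differentiable ℂ G) {R : ℝ} (hR : 0 < R)
    (hGR : ∀ w, R ≤ ‖w‖ → 2 * ‖w‖ ≤ ‖G w‖) {p : ℕ} (hp : 0 < p) (hAG : ∀ a ∈ A, G a ∈ A)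
    (hAP : ∀ a ∈ A, G^[p] a = a ∧ ‖deriv G^[p] a‖ < 1) {z : ℂ} (hz : Gd G A p z) :
    ∃ ρ > 0, ∀ B ε : ℝ, 0 < ε → ∀ᶠ n : ℕ in atTop, Go G A n B ε (ball z ρ) := by
  obtain ⟨ρ, hρ, J, C, hC, lam, hl0, hl1, h⟩ := fate_loc hG hR hGR hp hAP hz
  refine ⟨ρ, hρ, fun B ε hε => ?_⟩
  rcases h with h | ⟨a, ha, h⟩
  · have h1 : Tendsto (fun n : ℕ => (2 : ℝ) ^ (n - J) * R) atTop atTop :=
      ((tendsto_pow_atTop_atTop_of_one_lt (by norm_num : (1 : ℝ) < 2)).comp
        (tendsto_sub_atTop_nat J)).atTop_mul_const hR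
    filter_upwards [h1.eventually_ge_atTop B, eventually_ge_atTop J] with n h2 h3
    exact Or.inl fun w hw => h2.trans (h w hw n h3)
  · have h1 : Tendsto (fun n : ℕ => C * lam ^ n) atTop (𝓝 0) := by
      have := (tendsto_pow_atTop_nhds_zero_of_lt_one hl0.le hl1).const_mul C
      rwa [mul_zero] at this
    filter_upwards [h1.eventually (ge_mem_nhds hε), eventually_ge_atTop J] with n h2 h3
    exact Or.inr ⟨_, iter_mem hAG ha n, fun w hw => (h w hw n h3).trans h2⟩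

/-- the marked values -/
def Mr (g P Q : ℂ[X]) : Set ℂ :=
  {m | (∃ y, (wro P Q).eval y = 0 ∧ Q.eval y ≠ 0 ∧ m = rv P Q y) ∨
    (∃ (c : ℂ) (k : ℕ), (derivative g).eval c = 0 ∧ 1 ≤ k ∧ Q.eval ((ev g)^[k] c) ≠ 0 ∧
      m = rv P Q ((ev g)^[k] c)) ∨
    (∃ a ∈ sinks (ev g), Q.eval a ≠ 0 ∧ m = rv P Q a) ∨
    (Q.coeff (Dg P Q) ≠ 0 ∧ m = P.coeff (Dg P Q) / Q.coeff (Dg P Q))}

theorem q_ne (hc : IsCoprime P Q) (hd : 0 < Dg P Q) : Q ≠ 0 := by
  rintro rfl
  rw [isCoprime_zero_right] at hc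
  have h1 := natDegree_eq_zero_of_isUnit hc
  unfold Dg at hd
  rw [h1] at hd
  simp at hd

theorem ot_mark {s : ℂ} {i : Option (sinks (ev g))} {t : ℂ}
    (h : ot P Q (sinks (ev g)) s i = some t) : t - s ∈ Mr g P Q := by
  cases i with
  | none =>
    have h1 : tgt (P.coeff (Dg P Q)) (Q.coeff (Dg P Q)) s = some t := h
    unfold tgt at h1
    by_cases hq : Q.coeff (Dg P Q) = 0
    · rw [if_pos hq] at h1; simp at h1
    · rw [if_neg hq] at h1
      refine Or.inr (Or.inr (Or.inr ⟨hq, ?_⟩))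
      rw [← Option.some.inj h1]; ring
  | some a =>
    have h1 : tgt (P.eval a.1) (Q.eval a.1) s = some t := h
    unfold tgt at h1
    by_cases hq : Q.eval a.1 = 0
    · rw [if_pos hq] at h1; simp at h1
    · rw [if_neg hq] at h1
      refine Or.inr (Or.inr (Or.inl ⟨a.1, a.2, hq, ?_⟩))
      rw [← Option.some.inj h1]; unfold rv; ring

theorem det (hg : 2 ≤ g.natDegree) (hgl : TC g) (hc : IsCoprime P Q) (hd : 0 < Dg P Q) {s : ℂ}
    (hM : ∀ m ∈ Mr g P Q, Good (ev g) (m + s)) :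
    ∀ᶠ n : ℕ in atTop, Hyp (nu g P Q n s) (de g Q n) := by
  have hG := ev_diff g
  obtain ⟨R2, hR2⟩ := two_bound hg
  set R : ℝ := max 1 R2 with hR
  have hR0 : 0 < R := lt_of_lt_of_le one_pos (le_max_left _ _)
  have hGR := hR2 R (le_max_right _ _)
  have hA := sinks_finite hg
  obtain ⟨p, hp, hAP⟩ := common_period hG hA
  have hAG : ∀ a ∈ sinks (ev g), ev g a ∈ sinks (ev g) := fun a ha => map_sinks hG ha
  have hgd : ∀ z, Good (ev g) z → Gd (ev g) (sinks (ev g)) p z := fun z hz =>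
    (good_iff hG hp hAP z).mpr hz
  have hMd : ∀ m ∈ Mr g P Q, Gd (ev g) (sinks (ev g)) p (m + s) := fun m hm => hgd _ (hM m hm)
  set A := sinks (ev g) with hAdef
  have hfinA : Finite A := hA.to_subtype
  obtain ⟨N, hN, hloc⟩ := exists_loc hc hd hA ‖s‖
  have hN0 : 0 < N := by linarith
  have hs : Ok P Q A ‖s‖ s := Or.inl le_rfl
  have hQ := q_ne hc hd
  -- the radius
  have h1 : ∀ᶠ r : ℝ in 𝓝[>] 0, ∀ i : Option A, ∀ t, ot P Q A s i = some t → ∀ B ε : ℝ, 0 < ε →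
      ∀ᶠ n : ℕ in atTop, Go (ev g) A n B ε (ball t (2 * r)) := by
    rw [Filter.eventually_all]
    intro i
    rcases ho : ot P Q A s i with _ | t
    · exact Eventually.of_forall fun r t ht => by simp at ht
    · have h2 := hMd _ (ot_mark ho)
      rw [sub_add_cancel] at h2
      obtain ⟨ρ, hρ, h3⟩ := loc_go hG hR0 hGR hp hAG hAP h2
      filter_upwards [Ioo_mem_nhdsGT (show (0 : ℝ) < ρ / 2 by positivity)] with r hr t' ht' B ε hε
      obtain rfl : t = t' := Option.some.inj ht'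
      filter_upwards [h3 B ε hε] with n hn
      exact hn.mono (ball_subset_ball (by linarith [hr.2]))
  obtain ⟨r, ⟨hr1, hr2⟩, hr3⟩ := ((h1.and (Ioo_mem_nhdsGT
    (show (0 : ℝ) < 1 / (2 * R) by positivity))).and self_mem_nhdsWithin).exists
  have hr0 : 0 < r := hr3
  have hrR : 2 * r * R ≤ 1 := by
    have := hr2.2
    rw [lt_div_iff₀ (by positivity)] at this
    linarith
  set B : ℝ := max N (4 * N / r) with hBdef
  set ε : ℝ := min (1 / N) (r / (4 * N)) with hεdef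
  have hε0 : 0 < ε := by positivity
  have hB : N ≤ B := le_max_left _ _
  have hB2 : N / B ≤ r / 4 := by
    have hB0 : 0 < B := hN0.trans_le hB
    have : 4 * N / r ≤ B := le_max_right _ _
    rw [div_le_iff₀ hr0] at this
    rw [div_le_iff₀ hB0]
    linarith
  have hε : ε ≤ 1 / N := min_le_left _ _
  have hε2 : N * ε ≤ r / 4 := by
    have : ε ≤ r / (4 * N) := min_le_right _ _
    calc N * ε ≤ N * (r / (4 * N)) := mul_le_mul_of_nonneg_left this hN0.le
      _ = r / 4 := by field_simp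
  have e1 : ∀ᶠ n : ℕ in atTop, B ≤ 2 ^ n * R :=
    ((tendsto_pow_atTop_atTop_of_one_lt (by norm_num : (1 : ℝ) < 2)).atTop_mul_const
      hR0).eventually_ge_atTop B
  have e2 : ∀ᶠ n : ℕ in atTop, ∀ i : Option A, ∀ t, ot P Q A s i = some t →
      Go (ev g) A n B ε (ball t (2 * r)) := by
    rw [Filter.eventually_all]
    intro i
    rcases ho : ot P Q A s i with _ | t
    · exact Eventually.of_forall fun r t ht => by simp at ht
    · filter_upwards [hr1 i t ho B ε hε0] with n hn t' ht'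
      obtain rfl : t = t' := Option.some.inj ht'
      exact hn
  have hmark : ∀ m ∈ Mr g P Q, ∀ᶠ n : ℕ in atTop, Go (ev g) A n B ε {m + s} := by
    intro m hm
    obtain ⟨ρ, hρ, h3⟩ := loc_go hG hR0 hGR hp hAG hAP (hMd m hm)
    filter_upwards [h3 B ε hε0] with n hn
    exact hn.mono (singleton_subset_iff.mpr (mem_ball_self hρ))
  have e3 : ∀ᶠ n : ℕ in atTop, ∀ y ∈ {y : ℂ | (wro P Q).eval y = 0}, Q.eval y ≠ 0 →
      Go (ev g) A n B ε {rv P Q y + s} := by
    have hfin : {y : ℂ | (wro P Q).eval y = 0}.Finite := by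
      refine (Finset.finite_toSet (wro P Q).roots.toFinset).subset fun z hz => ?_
      rw [Finset.mem_coe, Multiset.mem_toFinset, mem_roots (wro_ne_zero hc hd)]
      exact hz
    rw [Filter.eventually_all_finite hfin]
    intro y hy
    by_cases hQy : Q.eval y = 0
    · exact Eventually.of_forall fun n h => absurd hQy h
    · filter_upwards [hmark _ (Or.inl ⟨y, hy, hQy, rfl⟩)] with n hn _
      exact hn
  have e4 : ∀ᶠ n : ℕ in atTop, ∀ c ∈ {z : ℂ | (derivative g).eval z = 0}, ∀ k : ℕ, 1 ≤ k →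
      Q.eval ((ev g)^[k] c) ≠ 0 → Go (ev g) A n B ε {rv P Q ((ev g)^[k] c) + s} ∨
        ((∃ a ∈ A, dist ((ev g)^[k] c) a ≤ ε) ∨ B ≤ ‖(ev g)^[k] c‖) := by
    rw [Filter.eventually_all_finite (crit_finite (by omega))]
    intro c hcc
    rcases hgl c hcc with hgc | hlc
    · obtain ⟨ρ, hρ, h3⟩ := loc_go hG hR0 hGR hp hAG hAP (hgd c hgc)
      obtain ⟨k0, hk0⟩ := Filter.eventually_atTop.mp (h3 B ε hε0)
      have h4 : ∀ᶠ n : ℕ in atTop, ∀ k ∈ Finset.range k0, 1 ≤ k → Q.eval ((ev g)^[k] c) ≠ 0 →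
          Go (ev g) A n B ε {rv P Q ((ev g)^[k] c) + s} := by
        rw [Filter.eventually_all_finset]
        intro k _
        by_cases hk : 1 ≤ k ∧ Q.eval ((ev g)^[k] c) ≠ 0
        · filter_upwards [hmark _ (Or.inr (Or.inl ⟨c, k, hcc, hk.1, hk.2, rfl⟩))] with n hn _ _
          exact hn
        · exact Eventually.of_forall fun n h1 h2 => absurd ⟨h1, h2⟩ hk
      filter_upwards [h4] with n hn k hk hQk
      by_cases hkk : k < k0
      · exact Or.inl (hn k (Finset.mem_range.mpr hkk) hk hQk)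
      · right
        rcases hk0 k (by omega) with h | ⟨a, ha, h⟩
        · exact Or.inr (h c (mem_ball_self hρ))
        · exact Or.inl ⟨a, ha, h c (mem_ball_self hρ)⟩
    · have hfin := orbit_finite hlc
      have h4 : ∀ᶠ n : ℕ in atTop, ∀ w ∈ Set.range (fun k : ℕ => (ev g)^[k] c),
          (∃ k, 1 ≤ k ∧ (ev g)^[k] c = w) → Q.eval w ≠ 0 → Go (ev g) A n B ε {rv P Q w + s} := by
        rw [Filter.eventually_all_finite hfin]
        intro w _
        by_cases hw : (∃ k, 1 ≤ k ∧ (ev g)^[k] c = w) ∧ Q.eval w ≠ 0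
        · obtain ⟨⟨k, hk, rfl⟩, hQw⟩ := hw
          filter_upwards [hmark _ (Or.inr (Or.inl ⟨c, k, hcc, hk, hQw, rfl⟩))] with n hn _ _
          exact hn
        · exact Eventually.of_forall fun n h1 h2 => absurd ⟨h1, h2⟩ hw
      filter_upwards [h4] with n hn k hk hQk
      exact Or.inl (hn _ ⟨k, rfl⟩ ⟨k, hk, rfl⟩ hQk)
  filter_upwards [e1, e2, e3, e4] with n hB3 hT h3 h4
  refine hyp_of hg hc hQ hd fun f hf => ⟨?_, fun y hy hQy => ?_, fun c hc' k hk1 hk2 hQk => ?_⟩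
  · exact uni_inf hg hc hd hA hR0 hGR hN hloc hs hf hr0 hrR hB hB2 hB3 hε hε2 hT
  · exact uni_pt hg hc hd hA hR0 hGR hN hloc hs hf hr0 hrR hB hB2 hB3 hε hε2 hT (h3 y hy hQy)
  · rcases h4 c hc' k hk1 hQk with h | h
    · exact uni_pt hg hc hd hA hR0 hGR hN hloc hs hf hr0 hrR hB hB2 hB3 hε hε2 hT h
    · exact uni_tail hg hc hd hA hR0 hGR hN hloc hs hf hr0 hrR hB hB2 hB3 hε hε2 hT hQk h

end Pool.Agent.Q186.RI
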