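import Mathlib
import Pool.Agent.Q186.RI.Det

/-! `R ∘ g^n` for almost every numerator (helper186). -/

set_option autoImplicit false

open Topology Filter Metric Set Polynomial MeasureTheory
open scoped OnePoint

namespace Pool.Agent.Q186.RI

open Pool.Agent.H762R2.Rt Pool.Agent.H462R2.AP Pool.Agent.Helper114.Herman
open Pool.Agent.Helper114.Konig
open Pool.Agent.H713R5.QJ (ev Good)
open Pool.Agent.H400R3.HI (ev_diff pow_le_iter Gd sinks sinks_finite common_period map_sinks good_iff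
  two_bound crit_finite iter_mem gd_open)
open Pool.Agent.Q186.AZ (fate_loc TC Land orbit_finite poly_null)

/-- the polynomial with given coefficients -/
noncomputable def poly {D : ℕ} (a : Fin (D + 1) → ℂ) : ℂ[X] := ∑ i : Fin (D + 1), C (a i) * X ^ (i : ℕ)

variable {D : ℕ}

theorem poly_eval (a : Fin (D + 1) → ℂ) (y : ℂ) : (poly a).eval y = ∑ i : Fin (D + 1), a i * y ^ (i : ℕ) := by
  unfold poly
  rw [eval_finsetSum]
  exact Finset.sum_congr rfl fun i _ => by simp

theorem poly_deriv (a : Fin (D + 1) → ℂ) (y : ℂ) : (derivative (poly a)).eval y =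
    ∑ i : Fin (D + 1), a i * ((i : ℕ) * y ^ ((i : ℕ) - 1)) := by
  unfold poly
  rw [derivative_sum, eval_finsetSum]
  refine Finset.sum_congr rfl fun i _ => ?_
  rw [derivative_C_mul, derivative_X_pow]
  simp

theorem poly_coeff (a : Fin (D + 1) → ℂ) (i : Fin (D + 1)) : (poly a).coeff i = a i := by
  unfold poly
  rw [finsetSum_coeff, Finset.sum_eq_single i]
  · simp
  · intro j _ hj
    rw [coeff_C_mul, coeff_X_pow, if_neg (fun h => hj (Fin.ext h.symm)), mul_zero]
  · intro h; exact absurd (Finset.mem_univ i) h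

theorem poly_natDegree_le (a : Fin (D + 1) → ℂ) : (poly a).natDegree ≤ D := by
  unfold poly
  refine natDegree_sum_le_of_forall_le _ _ fun i _ => ?_
  exact (natDegree_C_mul_X_pow_le _ _).trans (by have := i.2; omega)

theorem poly_natDegree {a : Fin (D + 1) → ℂ} (h : a (Fin.last D) ≠ 0) : (poly a).natDegree = D := by
  refine le_antisymm (poly_natDegree_le a) (le_natDegree_of_ne_zero ?_)
  have := poly_coeff a (Fin.last D)
  rw [Fin.val_last] at this
  rw [this]
  exact h

theorem poly_add (a v : Fin (D + 1) → ℂ) (s : ℂ) : poly (a + s • v) = poly a + C s * poly v := by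
  unfold poly
  rw [Finset.mul_sum, ← Finset.sum_add_distrib]
  refine Finset.sum_congr rfl fun i _ => ?_
  simp only [Pi.add_apply, Pi.smul_apply, smul_eq_mul, C_add, C_mul]
  ring

theorem poly_of (Q : ℂ[X]) (hQ : Q.natDegree ≤ D) : poly (fun i : Fin (D + 1) => Q.coeff i) = Q := by
  unfold poly
  conv_rhs => rw [Q.as_sum_range_C_mul_X_pow' (n := D + 1) (by omega)]
  rw [Finset.sum_range]

/-- the critical values -/
theorem meas_crit {K : Set ℂ} (hK : IsClosed K) (Q : ℂ[X]) :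
    MeasurableSet {a : Fin (D + 1) → ℂ | ∃ y, (wro (poly a) Q).eval y = 0 ∧ Q.eval y ≠ 0 ∧
      rv (poly a) Q y ∈ K} := by
  set Z : ℕ → Set ((Fin (D + 1) → ℂ) × ℂ) := fun j =>
    closedBall 0 j ∩ ({x | (wro (poly x.1) Q).eval x.2 = 0} ∩
      ({x | 1 / ((j : ℝ) + 1) ≤ ‖Q.eval x.2‖} ∩ (fun x => rv (poly x.1) Q x.2) ⁻¹' K)) with hZ
  have c1 : Continuous fun x : (Fin (D + 1) → ℂ) × ℂ => (poly x.1).eval x.2 := by
    simp only [poly_eval]; fun_prop
  have c2 : Continuous fun x : (Fin (D + 1) → ℂ) × ℂ => (derivative (poly x.1)).eval x.2 := by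
    simp only [poly_deriv]; fun_prop
  have c3 : ∀ T : ℂ[X], Continuous fun x : (Fin (D + 1) → ℂ) × ℂ => T.eval x.2 := fun T =>
    T.continuous.comp continuous_snd
  have hZc : ∀ j, IsCompact (Z j) := by
    intro j
    refine (isCompact_closedBall _ _).inter_right (IsClosed.inter ?_ ?_)
    · have h1 : Continuous fun x : (Fin (D + 1) → ℂ) × ℂ => (wro (poly x.1) Q).eval x.2 := by
        unfold wro
        simp only [eval_sub, eval_mul]
        exact (c2.mul (c3 Q)).sub (c1.mul (c3 (derivative Q)))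
      exact isClosed_eq h1 continuous_const
    · have h2 : IsClosed {x : (Fin (D + 1) → ℂ) × ℂ | 1 / ((j : ℝ) + 1) ≤ ‖Q.eval x.2‖} :=
        isClosed_le continuous_const (c3 Q).norm
      refine ContinuousOn.preimage_isClosed_of_isClosed ?_ h2 hK
      unfold rv
      refine c1.continuousOn.div (c3 Q).continuousOn fun x hx h0 => ?_
      have hx' : 1 / ((j : ℝ) + 1) ≤ ‖Q.eval x.2‖ := hx
      rw [h0, norm_zero] at hx'
      have : (0 : ℝ) < 1 / ((j : ℝ) + 1) := by positivity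
      linarith
  have e : {a : Fin (D + 1) → ℂ | ∃ y, (wro (poly a) Q).eval y = 0 ∧ Q.eval y ≠ 0 ∧
      rv (poly a) Q y ∈ K} = ⋃ j : ℕ, Prod.fst '' Z j := by
    ext a
    simp only [mem_iUnion, Set.mem_image, Prod.exists, exists_and_right, exists_eq_right]
    constructor
    · rintro ⟨y, h1, h2, h3⟩
      obtain ⟨j, hj⟩ := exists_nat_gt (max ‖((a, y) : (Fin (D + 1) → ℂ) × ℂ)‖ (1 / ‖Q.eval y‖))
      refine ⟨j, y, ?_, h1, ?_, h3⟩
      · rw [mem_closedBall_zero_iff]
        exact ((le_max_left _ _).trans hj.le)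
      · have h4 : 1 / ‖Q.eval y‖ < j := (le_max_right _ _).trans_lt hj
        have h5 : 0 < ‖Q.eval y‖ := norm_pos_iff.mpr h2
        show 1 / ((j : ℝ) + 1) ≤ ‖Q.eval y‖
        rw [div_lt_iff₀ h5] at h4
        rw [div_le_iff₀ (by positivity)]
        nlinarith
    · rintro ⟨j, y, -, h1, h2, h3⟩
      refine ⟨y, h1, fun h0 => ?_, h3⟩
      have hx' : 1 / ((j : ℝ) + 1) ≤ ‖Q.eval y‖ := h2
      rw [h0, norm_zero] at hx'
      have : (0 : ℝ) < 1 / ((j : ℝ) + 1) := by positivity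
      linarith
  rw [e]
  exact MeasurableSet.iUnion fun j => ((hZc j).image continuous_fst).isClosed.measurableSet

/-- marked values of `R + s` -/
theorem mr_add {g P Q : ℂ[X]} {s m : ℂ} (h : m ∈ Mr g (P + C s * Q) Q) :
    m - s ∈ Mr g P Q := by
  have hrv : ∀ y, Q.eval y ≠ 0 → rv (P + C s * Q) Q y - s = rv P Q y := by
    intro y hy
    unfold rv
    rw [eval_add, eval_mul, eval_C]
    field_simp
    ring
  have hD : Dg (P + C s * Q) Q = Dg P Q := deg_max P Q s
  rcases h with ⟨y, h1, h2, rfl⟩ | ⟨c, k, h1, h2, h3, rfl⟩ | ⟨a, h1, h2, rfl⟩ | ⟨h1, rfl⟩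
  · refine Or.inl ⟨y, ?_, h2, hrv y h2⟩
    unfold wro at h1 ⊢
    simp only [derivative_add, derivative_mul, derivative_C, zero_mul, zero_add, eval_sub, eval_mul,
      eval_add, eval_C] at h1 ⊢
    linear_combination h1
  · exact Or.inr (Or.inl ⟨c, k, h1, h2, h3, hrv _ h3⟩)
  · exact Or.inr (Or.inr (Or.inl ⟨a, h1, h2, hrv _ h2⟩))
  · rw [hD] at h1
    refine Or.inr (Or.inr (Or.inr ⟨h1, ?_⟩))
    rw [hD, coeff_add, coeff_C_mul]
    field_simp
    ring

theorem mr_countable {g P Q : ℂ[X]} (hg : 2 ≤ g.natDegree) (hc : IsCoprime P Q) (hd : 0 < Dg P Q) :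
    (Mr g P Q).Countable := by
  have hfin : {y : ℂ | (wro P Q).eval y = 0}.Finite := by
    refine (Finset.finite_toSet (wro P Q).roots.toFinset).subset fun z hz => ?_
    rw [Finset.mem_coe, Multiset.mem_toFinset, mem_roots (wro_ne_zero hc hd)]
    exact hz
  have e1 : {m : ℂ | ∃ y, (wro P Q).eval y = 0 ∧ Q.eval y ≠ 0 ∧ m = rv P Q y}.Countable :=
    ((hfin.image fun y => rv P Q y).countable).mono (by
      rintro m ⟨y, hy, -, rfl⟩; exact ⟨y, hy, rfl⟩)
  have e2 : {m : ℂ | ∃ (c : ℂ) (k : ℕ), (derivative g).eval c = 0 ∧ 1 ≤ k ∧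
      Q.eval ((ev g)^[k] c) ≠ 0 ∧ m = rv P Q ((ev g)^[k] c)}.Countable := by
    have : (⋃ k : ℕ, (fun z => rv P Q ((ev g)^[k] z)) ''
        {z : ℂ | (derivative g).eval z = 0}).Countable :=
      countable_iUnion fun k => ((crit_finite (by omega)).image _).countable
    refine this.mono ?_
    rintro m ⟨c, k, h1, -, -, rfl⟩
    exact mem_iUnion.mpr ⟨k, c, h1, rfl⟩
  have e3 : {m : ℂ | ∃ a ∈ sinks (ev g), Q.eval a ≠ 0 ∧ m = rv P Q a}.Countable :=
    (((sinks_finite hg).image fun y => rv P Q y).countable).mono (by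
      rintro m ⟨y, hy, -, rfl⟩; exact ⟨y, hy, rfl⟩)
  have e4 : {m : ℂ | Q.coeff (Dg P Q) ≠ 0 ∧
      m = P.coeff (Dg P Q) / Q.coeff (Dg P Q)}.Countable :=
    (countable_singleton (P.coeff (Dg P Q) / Q.coeff (Dg P Q))).mono (by
      rintro m ⟨-, rfl⟩; rfl)
  have : Mr g P Q = {m : ℂ | ∃ y, (wro P Q).eval y = 0 ∧ Q.eval y ≠ 0 ∧ m = rv P Q y} ∪
      ({m : ℂ | ∃ (c : ℂ) (k : ℕ), (derivative g).eval c = 0 ∧ 1 ≤ k ∧
      Q.eval ((ev g)^[k] c) ≠ 0 ∧ m = rv P Q ((ev g)^[k] c)} ∪
      ({m : ℂ | ∃ a ∈ sinks (ev g), Q.eval a ≠ 0 ∧ m = rv P Q a} ∪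
      {m : ℂ | Q.coeff (Dg P Q) ≠ 0 ∧ m = P.coeff (Dg P Q) / Q.coeff (Dg P Q)})) := rfl
  rw [this]
  exact e1.union (e2.union (e3.union e4))

theorem ae_marks {g P Q : ℂ[X]} (hg : 2 ≤ g.natDegree) (hgl : TC g) (hc : IsCoprime P Q)
    (hd : 0 < Dg P Q) : ∀ᵐ s : ℂ, ∀ m ∈ Mr g P Q, Good (ev g) (m + s) := by
  rw [ae_ball_iff (mr_countable hg hc hd)]
  intro m _
  rw [ae_iff]
  exact (measure_preimage_add volume m {z : ℂ | ¬ Good (ev g) z}).trans (poly_null hg hgl)

theorem ae_num {g Q : ℂ[X]} (hg : 2 ≤ g.natDegree) (hgl : TC g) (hD : 1 ≤ D) (hQ : Q ≠ 0)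
    (hQD : Q.natDegree ≤ D) : ∀ᵐ a : Fin (D + 1) → ℂ, ∀ᶠ n : ℕ in atTop,
      Hyp ((poly a).comp (g.comp^[n] X)) (Q.comp (g.comp^[n] X)) := by
  have hG := ev_diff g
  obtain ⟨R2, hR2⟩ := two_bound hg
  set R : ℝ := max 1 R2 with hR
  have hR0 : 0 < R := lt_of_lt_of_le one_pos (le_max_left _ _)
  have hGR := hR2 R (le_max_right _ _)
  have hA := sinks_finite hg
  obtain ⟨p, hp, hAP⟩ := common_period hG hA
  have hK : IsClosed {z : ℂ | ¬ Good (ev g) z} := by
    have e : {z : ℂ | ¬ Good (ev g) z} = {z | ¬ Gd (ev g) (sinks (ev g)) p z} := by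
      ext z
      exact not_congr (good_iff hG hp hAP z).symm
    rw [e]
    exact (gd_open hG hR0 hGR hp hAP).isClosed_compl
  set K : Set ℂ := {z : ℂ | ¬ Good (ev g) z} with hKdef
  set v : Fin (D + 1) → ℂ := fun i => Q.coeff i with hv
  have hpv : poly v = Q := poly_of Q hQD
  have ce : ∀ y : ℂ, Continuous fun a : Fin (D + 1) → ℂ => (poly a).eval y := by
    intro y
    simp only [poly_eval]; fun_prop
  -- the nondegenerate numerators
  set U : Set (Fin (D + 1) → ℂ) := {a | a (Fin.last D) ≠ 0 ∧ IsCoprime (poly a) Q} with hU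
  have hUeq : U = {a | a (Fin.last D) ≠ 0} ∩ ⋂ ρ ∈ Q.roots.toFinset, {a | (poly a).eval ρ ≠ 0} := by
    ext a
    simp only [hU, Set.mem_ofPred_eq, mem_inter_iff, mem_iInter]
    refine and_congr_right fun _ => ?_
    rw [isCoprime_comm, Polynomial.isCoprime_iff_aeval_ne_zero_of_isAlgClosed ℂ ℂ]
    constructor
    · intro h ρ hρ h0
      rw [Multiset.mem_toFinset, mem_roots hQ] at hρ
      rcases h ρ with h | h
      · exact h (by simpa using hρ)
      · exact h (by simpa using h0)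
    · intro h y
      by_cases hy : Q.eval y = 0
      · right
        simpa using h y (by rw [Multiset.mem_toFinset, mem_roots hQ]; exact hy)
      · left
        simpa using hy
  have hUo : IsOpen U := by
    rw [hUeq]
    refine (isOpen_ne_fun (continuous_apply _) continuous_const).inter ?_
    exact isOpen_biInter_finset fun ρ _ => isOpen_ne_fun (ce ρ) continuous_const
  have hUae : ∀ᵐ a : Fin (D + 1) → ℂ, a ∈ U := by
    have hlin : ∀ y : ℂ, ∀ᵐ a : Fin (D + 1) → ℂ, (poly a).eval y ≠ 0 := by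
      intro y
      set w : Fin (D + 1) → ℂ := fun i => if i = 0 then 1 else 0 with hw
      have hw1 : (poly w).eval y = 1 := by
        rw [poly_eval, Finset.sum_eq_single 0]
        · simp [hw]
        · intro j _ hj; simp [hw, hj]
        · intro h; exact absurd (Finset.mem_univ _) h
      refine ae_mem_of_ae_add_linearMap_mem (LinearMap.toSpanSingleton ℂ _ w) volume volume
        (s := {a : Fin (D + 1) → ℂ | (poly a).eval y ≠ 0})
        (isOpen_ne_fun (ce y) continuous_const).measurableSet fun a => ?_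
      have h1 : ∀ s : ℂ, (poly (a + s • w)).eval y = (poly a).eval y + s := by
        intro s
        rw [poly_add, eval_add, eval_mul, eval_C, hw1, mul_one]
      have h2 : ∀ᵐ s : ℂ, s ≠ -(poly a).eval y := by
        rw [ae_iff]; simp
      filter_upwards [h2] with s hs
      show (poly (a + (LinearMap.toSpanSingleton ℂ _ w) s)).eval y ≠ 0
      rw [LinearMap.toSpanSingleton_apply, h1]
      intro h0
      exact hs (by linear_combination h0)
    have hlast : ∀ᵐ a : Fin (D + 1) → ℂ, a (Fin.last D) ≠ 0 := by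
      refine ae_mem_of_ae_add_linearMap_mem (LinearMap.toSpanSingleton ℂ _
        (fun _ : Fin (D + 1) => (1 : ℂ))) volume volume
        (s := {a : Fin (D + 1) → ℂ | a (Fin.last D) ≠ 0})
        (isOpen_ne_fun (continuous_apply _) continuous_const).measurableSet fun a => ?_
      have h2 : ∀ᵐ s : ℂ, s ≠ -a (Fin.last D) := by
        rw [ae_iff]; simp
      filter_upwards [h2] with s hs
      show (a + (LinearMap.toSpanSingleton ℂ _ (fun _ : Fin (D + 1) => (1 : ℂ))) s) (Fin.last D) ≠ 0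
      rw [LinearMap.toSpanSingleton_apply]
      simp only [Pi.add_apply, Pi.smul_apply, smul_eq_mul, mul_one]
      intro h0
      exact hs (by linear_combination h0)
    have hroots : ∀ᵐ a : Fin (D + 1) → ℂ, ∀ ρ ∈ Q.roots.toFinset, (poly a).eval ρ ≠ 0 :=
      (Filter.eventually_all_finset _).mpr fun ρ _ => hlin ρ
    filter_upwards [hlast, hroots] with a h1 h2
    rw [hUeq]
    exact ⟨h1, mem_iInter₂.mpr h2⟩
  -- the marked values
  set E : Set (Fin (D + 1) → ℂ) := {a | ∃ m ∈ Mr g (poly a) Q, m ∈ K} with hE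
  have hEU : MeasurableSet (E ∩ U) := by
    have e : E ∩ U = (({a : Fin (D + 1) → ℂ | ∃ y, (wro (poly a) Q).eval y = 0 ∧ Q.eval y ≠ 0 ∧
        rv (poly a) Q y ∈ K} ∪
      ((⋃ k : ℕ, ⋃ c ∈ (crit_finite (p := g) (by omega)).toFinset,
        {a | (1 ≤ k ∧ Q.eval ((ev g)^[k] c) ≠ 0) ∧ rv (poly a) Q ((ev g)^[k] c) ∈ K}) ∪
      ((⋃ b ∈ hA.toFinset, {a | Q.eval b ≠ 0 ∧ rv (poly a) Q b ∈ K}) ∪
        {a | Q.coeff D ≠ 0 ∧ a (Fin.last D) / Q.coeff D ∈ K}))) ∩ U) := by
      ext a
      refine and_congr_left fun haU => ?_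
      have hDg : Dg (poly a) Q = D := by
        unfold Dg
        rw [poly_natDegree haU.1, max_eq_left hQD]
      have hco : (poly a).coeff D = a (Fin.last D) := by
        have := poly_coeff a (Fin.last D)
        rwa [Fin.val_last] at this
      constructor
      · rintro ⟨m, hm, hmK⟩
        rcases hm with ⟨y, h1, h2, rfl⟩ | ⟨c, k, h1, h2, h3, rfl⟩ | ⟨b, h1, h2, rfl⟩ | ⟨h1, rfl⟩
        · exact Or.inl ⟨y, h1, h2, hmK⟩
        · refine Or.inr (Or.inl (mem_iUnion.mpr ⟨k, mem_iUnion₂.mpr ⟨c, ?_, ⟨h2, h3⟩, hmK⟩⟩))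
          exact (Set.Finite.mem_toFinset _).mpr h1
        · exact Or.inr (Or.inr (Or.inl (mem_iUnion₂.mpr ⟨b, hA.mem_toFinset.mpr h1, h2, hmK⟩)))
        · rw [hDg] at h1
          rw [hDg, hco] at hmK
          exact Or.inr (Or.inr (Or.inr ⟨h1, hmK⟩))
      · rintro (⟨y, h1, h2, h3⟩ | h | h | ⟨h1, h2⟩)
        · exact ⟨_, Or.inl ⟨y, h1, h2, rfl⟩, h3⟩
        · obtain ⟨k, hk⟩ := mem_iUnion.mp h
          obtain ⟨c, hc, ⟨h1, h2⟩, h3⟩ := mem_iUnion₂.mp hk
          have hc' : (derivative g).eval c = 0 :=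
            (Set.Finite.mem_toFinset (crit_finite (p := g) (by omega))).mp hc
          exact ⟨_, Or.inr (Or.inl ⟨c, k, hc', h1, h2, rfl⟩), h3⟩
        · obtain ⟨b, hb, h1, h2⟩ := mem_iUnion₂.mp h
          exact ⟨_, Or.inr (Or.inr (Or.inl ⟨b, hA.mem_toFinset.mp hb, h1, rfl⟩)), h2⟩
        · refine ⟨(poly a).coeff D / Q.coeff D, Or.inr (Or.inr (Or.inr ?_)), ?_⟩
          · rw [hDg]; exact ⟨h1, rfl⟩
          · rw [hco]; exact h2
    rw [e]
    have crv : ∀ y : ℂ, Continuous fun a : Fin (D + 1) → ℂ => rv (poly a) Q y := by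
      intro y
      unfold rv
      exact (ce y).div_const _
    refine MeasurableSet.inter (MeasurableSet.union (meas_crit hK Q) (MeasurableSet.union ?_
      (MeasurableSet.union ?_ ?_))) hUo.measurableSet
    · refine MeasurableSet.iUnion fun k => Finset.measurableSet_biUnion _ fun c _ => ?_
      exact (MeasurableSet.const _).inter (hK.preimage (crv _)).measurableSet
    · refine Finset.measurableSet_biUnion _ fun b _ => ?_
      exact (MeasurableSet.const _).inter (hK.preimage (crv _)).measurableSet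
    · have hcl : Continuous fun a : Fin (D + 1) → ℂ => a (Fin.last D) / Q.coeff D := by
        simp only [div_eq_mul_inv]
        fun_prop
      exact (MeasurableSet.const _).inter (hK.preimage hcl).measurableSet
  have hEae : ∀ᵐ a : Fin (D + 1) → ℂ, a ∈ (E ∩ U)ᶜ := by
    refine ae_mem_of_ae_add_linearMap_mem (LinearMap.toSpanSingleton ℂ _ v) volume volume
      hEU.compl fun a => ?_
    have h1 : ∀ s : ℂ, poly (a + s • v) = poly a + C s * Q := by
      intro s
      rw [poly_add, hpv]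
    have hcop : ∀ s : ℂ, IsCoprime (poly a + C s * Q) Q → IsCoprime (poly a) Q := by
      rintro s ⟨x, y, hxy⟩
      exact ⟨x, y + x * C s, by linear_combination hxy⟩
    by_cases hgen : IsCoprime (poly a) Q ∧ 0 < Dg (poly a) Q
    · have h2 := ae_marks hg hgl hgen.1 hgen.2
      filter_upwards [h2] with s hs
      rintro ⟨⟨m, hm, hmK⟩, -⟩
      rw [LinearMap.toSpanSingleton_apply, h1] at hm
      have h3 := hs _ (mr_add hm)
      rw [sub_add_cancel] at h3
      exact hmK h3
    · refine Eventually.of_forall fun s => ?_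
      rintro ⟨-, h3, h4⟩
      rw [LinearMap.toSpanSingleton_apply] at h3 h4
      rw [h1] at h4
      refine hgen ⟨hcop s h4, ?_⟩
      have h5 := poly_natDegree h3
      rw [h1] at h5
      unfold Dg
      rw [← deg_max _ _ s, h5]
      exact lt_max_of_lt_left (by omega)
  filter_upwards [hUae, hEae] with a h1 h2
  have hd : 0 < Dg (poly a) Q := by
    unfold Dg
    rw [poly_natDegree h1.1]
    exact lt_max_of_lt_left (by omega)
  have h3 := det (s := 0) hg hgl h1.2 hd fun m hm => by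
    rw [add_zero]
    by_contra hb
    exact h2 ⟨⟨m, hm, hb⟩, h1⟩
  filter_upwards [h3] with n hn
  have e : nu g (poly a) Q n 0 = (poly a).comp (g.comp^[n] X) := by
    unfold nu
    rw [C_0, zero_mul, add_zero]
  rw [e] at hn
  exact hn

end Pool.Agent.Q186.RI
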