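import Mathlib
import Pool.Agent.Q186.RI.Det

/-! Exponential rate, dimension and area of the exceptional parameters (helper186). -/

set_option autoImplicit false

open Topology Filter Metric Set Polynomial MeasureTheory
open scoped OnePoint

namespace Pool.Agent.Q186.RI

open Pool.Agent.H762R2.Rt Pool.Agent.H462R2.AP Pool.Agent.Helper114.Herman
open Pool.Agent.Helper114.Konig
open Pool.Agent.H713R5.QJ (ev Good)
open Pool.Agent.H400R3.HI (ev_diff pow_le_iter Gd sinks sinks_finite common_period map_sinks good_iff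
  two_bound crit_finite iter_mem)
open Pool.Agent.Q186.AZ (fate_loc TC Land orbit_finite poly_null dim_area push expo arith)

theorem rate_rat {g : ℂ[X]} (hg : 2 ≤ g.natDegree) (hyp : Pool.Agent.H400R3.HI.Hyp g) :
    ∃ c : ℝ, 0 < c ∧ ∀ P Q : ℂ[X], IsCoprime P Q → 0 < Dg P Q → ∀ S : ℝ, ∃ n₁ : ℕ, ∀ n : ℕ,
      n₁ ≤ n → volume {s : ℂ | Ok P Q (sinks (ev g)) S s ∧ ¬ Hyp (nu g P Q n s) (de g Q n)} ≤
        ENNReal.ofReal (Real.exp (-(c * n))) := by
  classical
  have hG := ev_diff g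
  obtain ⟨R2, hR2⟩ := two_bound hg
  set Rg : ℝ := max 1 R2 with hRg
  have hRg0 : 0 < Rg := lt_of_lt_of_le one_pos (le_max_left _ _)
  have hGRg := hR2 Rg (le_max_right _ _)
  have hA := sinks_finite hg
  obtain ⟨p, hp, hAP⟩ := common_period hG hA
  have hAG : ∀ a ∈ sinks (ev g), ev g a ∈ sinks (ev g) := fun a ha => map_sinks hG ha
  have hgdi : ∀ z, Good (ev g) z → Gd (ev g) (sinks (ev g)) p z := fun z hz =>
    (good_iff hG hp hAP z).mpr hz
  set G := ev g with hGdef
  set A := sinks G with hAdef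
  have hder : ∀ z, deriv G z = (derivative g).eval z := fun z => Polynomial.deriv _
  have hCeq : {c | deriv G c = 0} = {z : ℂ | (derivative g).eval z = 0} := by
    ext c; show deriv G c = 0 ↔ _; rw [hder]; rfl
  have hCf : {z : ℂ | (derivative g).eval z = 0}.Finite := crit_finite (by omega)
  have hC : {c | deriv G c = 0}.Finite := by rw [hCeq]; exact hCf
  have hcg : ∀ c, deriv G c = 0 → Gd G A p c := fun c hc =>
    hgdi c (hyp c (by rw [← hder]; exact hc))
  have hAgd : ∀ a ∈ A, Gd G A p a := by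
    intro a ha
    refine Or.inr ⟨a, ha, ?_⟩
    have h1 : ∀ k : ℕ, G^[p * k] a = a := fun k => by
      rw [Function.iterate_mul]; exact Function.iterate_fixed (hAP a ha).1 k
    simp only [h1]
    exact tendsto_const_nhds
  obtain ⟨τ, hτ, d, hd0, hd2, hdim, K₀, hK₀, μ, hμ0, hμ1, m₀, harea⟩ :=
    dim_area hG hRg0 hGRg hA hp hAG hAP hAgd hC hcg
  obtain ⟨ρ₀, hρ₀, L, hL1, J, C₁, hC₁, lam₀, hl0', hl1', hpush₀⟩ :=
    push hG hRg0 hGRg hp hAG hAP hτ
  have hL0 : 0 < L := by linarith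
  -- smaller constants
  set lam : ℝ := max lam₀ (1 / 2) with hlam
  have hl0 : 0 < lam := lt_of_lt_of_le hl0' (le_max_left _ _)
  have hl1 : lam < 1 := max_lt hl1' (by norm_num)
  have hl2 : 1 / 2 ≤ lam := le_max_right _ _
  set ρ : ℝ := min ρ₀ (1 / Rg) with hρdef
  have hρ : 0 < ρ := by positivity
  have hρR : ρ * Rg ≤ 1 := by
    have : ρ ≤ 1 / Rg := min_le_right _ _
    rwa [le_div_iff₀ hRg0] at this
  have hpush : ∀ (m : ℕ) (z : ℂ), (∀ y, ¬ Gd G A p y → τ ≤ dist (G^[m] z) y) →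
      ∀ k, m + J ≤ k → Go G A k (2 ^ (k - (m + J)) * Rg) (C₁ * lam ^ (k - m)) (ball z (ρ / L ^ m)) := by
    intro m z hz k hk
    have hsub : ball z (ρ / L ^ m) ⊆ ball z (ρ₀ / L ^ m) :=
      ball_subset_ball (div_le_div_of_nonneg_right (min_le_left _ _) (by positivity))
    rcases hpush₀ m z hz k hk with h | ⟨a, ha, h⟩
    · exact Or.inl fun w hw => h w (hsub hw)
    · refine Or.inr ⟨a, ha, fun w hw => (h w (hsub hw)).trans ?_⟩
      exact mul_le_mul_of_nonneg_left (pow_le_pow_left₀ hl0'.le (le_max_left _ _) _) hC₁.le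
  obtain ⟨q, hq2, hq3, hqlim⟩ := expo hL1 hl0 hl1
  obtain ⟨c, hc0, har⟩ := arith hμ0 hμ1 (q := q) (by omega)
  refine ⟨c / 2, by positivity, fun P Q hc hd S => ?_⟩
  obtain ⟨N, hN, hloc⟩ := exists_loc hc hd hA S
  have hN0 : 0 < N := by linarith
  have hQ := q_ne hc hd
  have hwfin : {y : ℂ | (wro P Q).eval y = 0}.Finite := by
    refine (Finset.finite_toSet (wro P Q).roots.toFinset).subset fun z hz => ?_
    rw [Finset.mem_coe, Multiset.mem_toFinset, mem_roots (wro_ne_zero hc hd)]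
    exact hz
  -- the marked values
  set V₀ : Finset ℂ := hwfin.toFinset.image (fun y => rv P Q y) ∪
    (hA.toFinset.image (fun a => rv P Q a) ∪ {P.coeff (Dg P Q) / Q.coeff (Dg P Q)}) with hV₀
  set V : ℕ → Finset ℂ := fun n => V₀ ∪ (Finset.Icc 1 n).biUnion fun k =>
    hCf.toFinset.image fun z => rv P Q (G^[k] z) with hV
  have hVcard : ∀ n : ℕ, ((V n).card : ℝ) ≤ V₀.card + hCf.toFinset.card * n := by
    intro n
    have h1 : (V n).card ≤ V₀.card + n * hCf.toFinset.card := by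
      refine (Finset.card_union_le _ _).trans (Nat.add_le_add_left ?_ _)
      refine Finset.card_biUnion_le.trans ?_
      refine (Finset.sum_le_card_nsmul _ _ _ fun k _ => Finset.card_image_le).trans ?_
      rw [Nat.card_Icc, smul_eq_mul, Nat.add_sub_cancel]
    have h2 : ((V n).card : ℝ) ≤ V₀.card + n * hCf.toFinset.card := by exact_mod_cast h1
    linarith
  -- large `n`
  have t1 : Tendsto (fun n : ℕ => n - n / q) atTop atTop := by
    refine tendsto_atTop.mpr fun b => ?_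
    filter_upwards [eventually_ge_atTop (3 * b)] with n hn
    have := hq3 n
    omega
  have t2 : Tendsto (fun n : ℕ => n / q) atTop atTop := Nat.tendsto_div_const_atTop (by omega)
  have t3 : Tendsto (fun n : ℕ => (2 : ℝ) ^ (n - (n / q + J)) * Rg) atTop atTop := by
    refine Tendsto.atTop_mul_const hRg0 ?_
    refine (tendsto_pow_atTop_atTop_of_one_lt (by norm_num : (1 : ℝ) < 2)).comp ?_
    refine tendsto_atTop.mpr fun b => ?_
    filter_upwards [t1.eventually_ge_atTop (b + J)] with n hn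
    omega
  have t5 : Tendsto (fun n : ℕ => C₁ * lam ^ (n - n / q)) atTop (𝓝 0) := by
    have := ((tendsto_pow_atTop_nhds_zero_of_lt_one hl0.le hl1).comp t1).const_mul C₁
    rw [mul_zero] at this
    exact this
  have hev : ∀ᶠ n : ℕ in atTop, (n / q + J ≤ n ∧ m₀ ≤ n / q) ∧
      N ≤ 2 ^ (n - (n / q + J)) * Rg ∧ C₁ * lam ^ (n - n / q) ≤ 1 / N ∧
      L ^ (n / q) * lam ^ (n - n / q) ≤ ρ / (8 * N * C₁) ∧
      L ^ (n / q) * lam ^ (n - n / q) ≤ ρ * Rg / (8 * N * 2 ^ J) := by
    filter_upwards [t1.eventually_ge_atTop J, t2.eventually_ge_atTop m₀,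
      t3.eventually_ge_atTop N, t5.eventually (ge_mem_nhds (show (0 : ℝ) < 1 / N by positivity)),
      hqlim.eventually (ge_mem_nhds (show (0 : ℝ) < ρ / (8 * N * C₁) by positivity)),
      hqlim.eventually (ge_mem_nhds (show (0 : ℝ) < ρ * Rg / (8 * N * 2 ^ J) by positivity))]
      with n h1 h2 h3 h5 h6 h7
    have : n / q ≤ n := Nat.div_le_self n q
    exact ⟨⟨by omega, h2⟩, h3, h5, h6, h7⟩
  obtain ⟨n₁, hn₁⟩ := Filter.eventually_atTop.mp hev
  -- the inclusion
  have hincl : ∀ n, n₁ ≤ n → {s : ℂ | Ok P Q A S s ∧ ¬ Hyp (nu g P Q n s) (de g Q n)} ⊆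
      ⋃ v ∈ V n, {s : ℂ | ∃ w, ¬ Gd G A p w ∧ dist (G^[n / q] (v + s)) w < τ} := by
    intro n hn s hs'
    obtain ⟨hs, hsH⟩ := hs'
    by_contra hcon
    obtain ⟨⟨h1, h2⟩, h3, h5, h6, h7⟩ := hn₁ n hn
    have hfar : ∀ v ∈ V n, ∀ y, ¬ Gd G A p y → τ ≤ dist (G^[n / q] (v + s)) y := by
      intro v hv y hy
      by_contra hlt
      exact hcon (mem_iUnion₂.mpr ⟨v, hv, y, hy, not_le.mp hlt⟩)
    set m := n / q with hm
    have hLm : 0 < L ^ m := by positivity
    set r : ℝ := ρ / L ^ m / 2 with hr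
    have hr0 : 0 < r := by positivity
    have h2r : 2 * r = ρ / L ^ m := by rw [hr]; ring
    set B : ℝ := 2 ^ (n - (m + J)) * Rg with hB
    have hB0 : 0 < B := by positivity
    set ε : ℝ := C₁ * lam ^ (n - m) with hε
    have hrR : 2 * r * Rg ≤ 1 := by
      rw [h2r, div_mul_eq_mul_div, div_le_one hLm]
      exact hρR.trans (one_le_pow₀ hL1)
    have hB2 : N / B ≤ r / 4 := by
      rw [div_le_iff₀ hB0]
      have e1 : (1 / 2 : ℝ) ^ (n - m) ≤ lam ^ (n - m) := pow_le_pow_left₀ (by norm_num) hl2 _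
      have e2 : L ^ m * (1 / 2) ^ (n - m) ≤ ρ * Rg / (8 * N * 2 ^ J) :=
        (mul_le_mul_of_nonneg_left e1 hLm.le).trans h7
      have e3 : (2 : ℝ) ^ (n - (m + J)) = 1 / ((1 / 2) ^ (n - m) * 2 ^ J) := by
        rw [eq_div_iff (by positivity)]
        have : n - m = n - (m + J) + J := by omega
        rw [this, one_div, inv_pow, pow_add]
        field_simp
      rw [hB, e3, hr]
      rw [le_div_iff₀ (by positivity)] at e2
      have e4 : ρ / L ^ m / 2 / 4 * (1 / ((1 / 2) ^ (n - m) * 2 ^ J) * Rg) =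
          ρ * Rg / (L ^ m * (1 / 2) ^ (n - m) * (8 * 2 ^ J)) := by
        field_simp
        ring
      rw [e4, le_div_iff₀ (by positivity)]
      linarith
    have hB3 : B ≤ 2 ^ n * Rg :=
      mul_le_mul_of_nonneg_right (pow_le_pow_right₀ (by norm_num) (by omega)) hRg0.le
    have hε2 : N * ε ≤ r / 4 := by
      rw [le_div_iff₀ (by positivity)] at h6
      rw [hε, hr]
      have e4 : ρ / L ^ m / 2 / 4 = ρ / (8 * L ^ m) := by field_simp; ring
      rw [e4, le_div_iff₀ (by positivity)]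
      linarith
    have hVA : ∀ a ∈ A, rv P Q a ∈ V n := fun a ha =>
      Finset.mem_union_left _ (Finset.mem_union_right _ (Finset.mem_union_left _
        (Finset.mem_image_of_mem _ (hA.mem_toFinset.mpr ha))))
    have hVi : P.coeff (Dg P Q) / Q.coeff (Dg P Q) ∈ V n :=
      Finset.mem_union_left _ (Finset.mem_union_right _ (Finset.mem_union_right _
        (Finset.mem_singleton_self _)))
    have hT : ∀ i : Option A, ∀ t, ot P Q A s i = some t → Go G A n B ε (ball t (2 * r)) := by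
      intro i t ht
      have hv : ∃ v ∈ V n, t = v + s := by
        cases i with
        | none =>
          have h1 : tgt (P.coeff (Dg P Q)) (Q.coeff (Dg P Q)) s = some t := ht
          unfold tgt at h1
          by_cases hq : Q.coeff (Dg P Q) = 0
          · rw [if_pos hq] at h1; simp at h1
          · rw [if_neg hq] at h1
            exact ⟨_, hVi, (Option.some.inj h1).symm⟩
        | some a =>
          have h1 : tgt (P.eval a.1) (Q.eval a.1) s = some t := ht
          unfold tgt at h1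
          by_cases hq : Q.eval a.1 = 0
          · rw [if_pos hq] at h1; simp at h1
          · rw [if_neg hq] at h1
            exact ⟨_, hVA a.1 a.2, (Option.some.inj h1).symm⟩
      obtain ⟨v, hv, rfl⟩ := hv
      rw [h2r]
      exact hpush m _ (hfar v hv) n h1
    have hpt : ∀ v ∈ V n, Go G A n B ε {v + s} := fun v hv =>
      (hpush m _ (hfar v hv) n h1).mono (singleton_subset_iff.mpr (mem_ball_self (by positivity)))
    apply hsH
    refine hyp_of hg hc hQ hd fun f hf => ⟨?_, fun y hy hQy => ?_, fun c hc' k hk1 hk2 hQk => ?_⟩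
    · exact uni_inf hg hc hd hA hRg0 hGRg hN hloc hs hf hr0 hrR h3 hB2 hB3 h5 hε2 hT
    · refine uni_pt hg hc hd hA hRg0 hGRg hN hloc hs hf hr0 hrR h3 hB2 hB3 h5 hε2 hT (hpt _ ?_)
      exact Finset.mem_union_left _ (Finset.mem_union_left _
        (Finset.mem_image_of_mem _ (hwfin.mem_toFinset.mpr hy)))
    · refine uni_pt hg hc hd hA hRg0 hGRg hN hloc hs hf hr0 hrR h3 hB2 hB3 h5 hε2 hT (hpt _ ?_)
      refine Finset.mem_union_right _ (Finset.mem_biUnion.mpr ⟨k, Finset.mem_Icc.mpr ⟨hk1, hk2⟩, ?_⟩)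
      exact Finset.mem_image_of_mem (fun z => rv P Q (G^[k] z)) (hCf.mem_toFinset.mpr hc')
  -- the areas
  obtain ⟨K₁, hK₁⟩ := har (V₀.card * K₀) (hCf.toFinset.card * K₀) (by positivity) (by positivity)
  have t8 : ∀ᶠ n : ℕ in atTop, K₁ * Real.exp (-(c * n)) ≤ Real.exp (-(c / 2 * n)) := by
    have h1 : Tendsto (fun n : ℕ => c / 2 * n) atTop atTop :=
      (tendsto_natCast_atTop_atTop (R := ℝ)).const_mul_atTop (by positivity)
    filter_upwards [h1.eventually_ge_atTop K₁] with n hn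
    have h2 : K₁ ≤ Real.exp (c / 2 * n) := by
      have := Real.add_one_le_exp (c / 2 * n)
      linarith
    calc K₁ * Real.exp (-(c * n)) ≤ Real.exp (c / 2 * n) * Real.exp (-(c * n)) :=
          mul_le_mul_of_nonneg_right h2 (Real.exp_pos _).le
      _ = Real.exp (-(c / 2 * n)) := by rw [← Real.exp_add]; congr 1; ring
  obtain ⟨n₂, hn₂⟩ := Filter.eventually_atTop.mp t8
  refine ⟨max n₁ n₂, fun n hn => ?_⟩
  have hna : n₁ ≤ n := (le_max_left _ _).trans hn
  refine (measure_mono (hincl n hna)).trans ((measure_biUnion_finset_le (V n) _).trans ?_)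
  have h1 : ∀ v ∈ V n, volume {s : ℂ | ∃ w, ¬ Gd G A p w ∧ dist (G^[n / q] (v + s)) w < τ} ≤
      ENNReal.ofReal (K₀ * μ ^ (n / q)) := by
    intro v _
    refine le_trans (le_of_eq ?_) (harea (n / q) (hn₁ n hna).1.2)
    exact measure_preimage_add volume v {z : ℂ | ∃ w, ¬ Gd G A p w ∧ dist (G^[n / q] z) w < τ}
  refine (Finset.sum_le_sum h1).trans ?_
  rw [Finset.sum_const, nsmul_eq_mul, ← ENNReal.ofReal_natCast,
    ← ENNReal.ofReal_mul (Nat.cast_nonneg _)]
  refine ENNReal.ofReal_le_ofReal ?_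
  calc ((V n).card : ℝ) * (K₀ * μ ^ (n / q))
      ≤ (V₀.card + hCf.toFinset.card * n) * (K₀ * μ ^ (n / q)) :=
        mul_le_mul_of_nonneg_right (hVcard n) (by positivity)
    _ = (V₀.card * K₀ + hCf.toFinset.card * K₀ * n) * μ ^ (n / q) := by ring
    _ ≤ K₁ * Real.exp (-(c * n)) := hK₁ n
    _ ≤ _ := hn₂ n ((le_max_right _ _).trans hn)

end Pool.Agent.Q186.RI
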