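import Mathlib
import Pool.Agent.Q186.RI.Rate
import Pool.Agent.Q186.RI.AE

/-! Dimension of the exceptional parameters, and nearby hyperbolic maps (helper186). -/

set_option autoImplicit false

open Topology Filter Metric Set Polynomial MeasureTheory
open scoped OnePoint

namespace Pool.Agent.Q186.RI

open Pool.Agent.H762R2.Rt
open Pool.Agent.H713R5.QJ (ev Good)
open Pool.Agent.H400R3.HI (sinks)
open Pool.Agent.Q186.AZ (TC)

theorem ev_of_marks {g P Q : ℂ[X]} (hg : 2 ≤ g.natDegree) (hgl : TC g) (hc : IsCoprime P Q)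
    (hd : 0 < Dg P Q) {s : ℂ} (hM : ∀ m ∈ Mr g P Q, Good (ev g) (m + s)) :
    ∀ᶠ n : ℕ in atTop, Hyp (nu g P Q n s) (de g Q n) := det hg hgl hc hd hM

theorem dim_rat {g P Q : ℂ[X]} (hg : 2 ≤ g.natDegree) (hgl : TC g) (hc : IsCoprime P Q)
    (hd : 0 < Dg P Q) :
    dimH {s : ℂ | ¬ ∀ᶠ n : ℕ in atTop, Hyp (nu g P Q n s) (de g Q n)} ≤
      dimH {z : ℂ | ¬ Good (ev g) z} := by
  have hsub : {s : ℂ | ¬ ∀ᶠ n : ℕ in atTop, Hyp (nu g P Q n s) (de g Q n)} ⊆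
      ⋃ m ∈ Mr g P Q, (IsometryEquiv.addLeft m) ⁻¹' {z : ℂ | ¬ Good (ev g) z} := by
    intro s hs
    by_contra hcon
    apply hs
    refine det hg hgl hc hd fun m hm => ?_
    by_contra hb
    exact hcon (mem_iUnion₂.mpr ⟨m, hm, hb⟩)
  refine (dimH_mono hsub).trans ?_
  rw [dimH_bUnion (mr_countable hg hc hd)]
  refine iSup₂_le fun m _ => ?_
  rw [IsometryEquiv.dimH_preimage]

theorem rate_near {g : ℂ[X]} (hg : 2 ≤ g.natDegree) (hyp : Pool.Agent.H400R3.HI.Hyp g) :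
    ∃ c : ℝ, 0 < c ∧ ∀ P Q : ℂ[X], IsCoprime P Q → 0 < Dg P Q →
      (∀ S : ℝ, ∃ n₁ : ℕ, ∀ n : ℕ, n₁ ≤ n →
        volume {s ∈ closedBall (0 : ℂ) S | ¬ Hyp (nu g P Q n s) (de g Q n)} ≤
          ENNReal.ofReal (Real.exp (-(c * n)))) ∧
      (((∀ a ∈ sinks (ev g), Q.eval a ≠ 0) ∧ Q.coeff (Dg P Q) ≠ 0) → ∃ n₁ : ℕ, ∀ n : ℕ, n₁ ≤ n →
        volume {s : ℂ | ¬ Hyp (nu g P Q n s) (de g Q n)} ≤
          ENNReal.ofReal (Real.exp (-(c * n)))) ∧
      ∃ n₁ : ℕ, ∀ n : ℕ, n₁ ≤ n → ∃ s : ℂ, ‖s‖ ≤ Real.exp (-(c * n)) ∧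
        Hyp (nu g P Q n s) (de g Q n) := by
  obtain ⟨c, hc, h⟩ := rate_rat hg hyp
  have hle : ∀ n : ℕ, ENNReal.ofReal (Real.exp (-(c * n))) ≤
      ENNReal.ofReal (Real.exp (-(c / 2 * n))) := by
    intro n
    refine ENNReal.ofReal_le_ofReal (Real.exp_le_exp.mpr ?_)
    have : 0 ≤ c / 2 * n := by positivity
    linarith
  refine ⟨c / 2, by positivity, fun P Q hcP hd => ⟨fun S => ?_, fun hfin => ?_, ?_⟩⟩
  · obtain ⟨n₁, hn₁⟩ := h P Q hcP hd S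
    refine ⟨n₁, fun n hn => (measure_mono ?_).trans ((hn₁ n hn).trans (hle n))⟩
    rintro s ⟨hs1, hs2⟩
    exact ⟨Or.inl (mem_closedBall_zero_iff.mp hs1), hs2⟩
  · obtain ⟨n₁, hn₁⟩ := h P Q hcP hd 0
    refine ⟨n₁, fun n hn => (measure_mono ?_).trans ((hn₁ n hn).trans (hle n))⟩
    intro s hs
    exact ⟨Or.inr hfin, hs⟩
  · obtain ⟨n₁, hn₁⟩ := h P Q hcP hd 1
    refine ⟨n₁, fun n hn => ?_⟩
    by_contra hcon
    push Not at hcon
    have h1 := hn₁ n hn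
    set ρ : ℝ := Real.exp (-(c / 2 * n)) with hρ
    have hρ0 : 0 < ρ := Real.exp_pos _
    have hρ1 : ρ ≤ 1 := Real.exp_le_one_iff.mpr (by
      have : 0 ≤ c / 2 * n := by positivity
      linarith)
    have h2 : closedBall (0 : ℂ) ρ ⊆
        {s : ℂ | Ok P Q (sinks (ev g)) 1 s ∧ ¬ Hyp (nu g P Q n s) (de g Q n)} := by
      intro s hs
      rw [mem_closedBall_zero_iff] at hs
      exact ⟨Or.inl (hs.trans hρ1), hcon s hs⟩
    have h3 := (measure_mono h2).trans h1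
    rw [Complex.volume_closedBall] at h3
    have h4 : Real.exp (-(c * n)) = ρ ^ 2 := by
      rw [hρ, ← Real.exp_nat_mul]; congr 1; push_cast; ring
    rw [h4, ENNReal.ofReal_pow hρ0.le, mul_comm] at h3
    have h5 : ENNReal.ofReal ρ ^ 2 ≠ 0 := by positivity
    have h6 : ENNReal.ofReal ρ ^ 2 ≠ ⊤ := by finiteness
    have h7 : ((NNReal.pi : NNReal) : ENNReal) ≤ 1 := by
      by_contra h8
      rw [not_le] at h8
      have h9 : ENNReal.ofReal ρ ^ 2 * 1 < ENNReal.ofReal ρ ^ 2 * (NNReal.pi : ENNReal) :=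
        (ENNReal.mul_lt_mul_iff_right h5 h6).mpr h8
      rw [mul_one] at h9
      rw [mul_comm] at h9
      exact absurd h3 (not_le.mpr h9)
    have h8 : NNReal.pi ≤ 1 := by exact_mod_cast h7
    have h9 : Real.pi ≤ 1 := by exact_mod_cast h8
    linarith [Real.pi_gt_three]

end Pool.Agent.Q186.RI
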